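import Pool.Agent.Helper72.RA.Defs2

set_option autoImplicit false

namespace Pool.Agent.Helper72.RA

open Real Finset MeasureTheory Filter

open scoped Classical

/-! ## Small lemmas -/

lemma det_qi_pos {q : ℕ} (hq : 0 < q) (k : ℕ) : 0 < qi q k := by
  unfold qi; positivity

lemma det_qi_anti {q : ℕ} (hq : 1 ≤ q) {a b : ℕ} (h : a ≤ b) : qi q b ≤ qi q a := by
  unfold qi
  apply inv_anti₀ (by positivity)
  exact pow_le_pow_right₀ (by exact_mod_cast hq) h

lemma det_qi_le_one {q : ℕ} (hq : 1 ≤ q) (a : ℕ) : qi q a ≤ 1 := by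
  have := det_qi_anti hq (Nat.zero_le a)
  simpa [qi] using this

/-- symmetric hubN -/
lemma det_hubN_symm {K : Type} (p s : K → ℝ) (n : K → K → ℝ) (hn : ∀ i k, n i k = n k i)
    (i k j : K) (θ : ℝ) : hubN p s n i k j θ = hubN p s n k i j θ := by
  unfold hubN
  rw [hn i j, hn j k]
  ring_nf

/-- everything the stages produce -/
structure Stg {q m : ℕ} (D : Lay q m) (θ : Fin (NN m) → ℝ) where
  S : StB D θ
  ep : D.K → Option (Fin (NN m))
  e0 : D.K → Option (Fin (NN m))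
  ep_ty : ∀ k t, ep k = some t → D.ty k = Ty.xp ∧ π - top q < θ t ∧ t ∉ S.used
  e0_ty : ∀ k t, e0 k = some t → D.ty k = Ty.x0 ∧ θ t < top q ∧ t ∉ S.used
  b : ℝ
  ρ : D.K → ℝ
  tσ : D.K → Fin (NN m)
  ns : D.K → ℝ
  hb : (q : ℝ) ^ 1967 ≤ b
  hρ : ∀ k, 0 < ρ k
  hρhv : ρ D.hv = 1
  hσ : ∀ k, 1 / 100 ≤ θ (tσ k) ∧ θ (tσ k) ≤ π - 1 / 100
  hσb : 1 / b = cos (S.al D.hv) + cos (θ (tσ D.hv)) / sin (θ (tσ D.hv)) * sin (S.al D.hv)
  hσk : ∀ k, k ≠ D.hv → ep k = none → e0 k = none →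
    1 / ρ k = cos (S.be k) + cos (θ (tσ k)) / sin (θ (tσ k)) * sin (S.be k)
  hep : ∀ k t, ep k = some t →
    ρ k = cos (S.be k) + cos (θ (tσ k)) / sin (θ (tσ k)) * sin (S.be k) ∧
    |ns k| ≤ qi q 330 ∧
    CP (ρ k * cos (S.al k) - ρ D.sv * cos (S.al D.sv)) (b - ρ k * cos (S.al k))
      (ρ D.sv * sin (S.al D.sv)) (ρ k * sin (S.al k)) (ns k) (π - θ t)
  he0 : ∀ k t, e0 k = some t →
    ρ D.sv / ρ k = cos (θ (S.tb k)) + cos (θ t) / sin (θ t) * sin (θ (S.tb k))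
  hρx : ∀ k, D.ty k = Ty.xp ∨ D.ty k = Ty.x0 → ρ k ≤ (q : ℝ)
  hFH : ∀ k, isF D k ∨ D.ty k = Ty.h →
    |ρ k * cos (S.al k) - D.pos k| ≤ qi q 860 ∧ |ρ k * sin (S.al k) - D.rad k| ≤ qi q 860
  hg : Fin (NN m) → D.K
  hx : Fin (NN m) → D.K
  ν : Fin (NN m) → ℝ
  hgx : ∀ t ∈ mids S, D.ty (hg t) = Ty.g ∧ D.ty (hx t) = Ty.v ∧ D.lev (hx t) = 0
  hinj : ∀ t ∈ mids S, ∀ t' ∈ mids S, hg t = hg t' → hx t = hx t' → t = t'
  hν : ∀ t ∈ mids S, |ν t| ≤ 1 / 100
  hνs : ∑ t ∈ mids S, ν t ^ 2 ≤ 1 / 1000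
  hhost : ∀ t ∈ mids S, ρ (hx t) * cos (S.al (hx t)) < ρ (hg t) * cos (S.al (hg t)) ∧
    ρ (hg t) * cos (S.al (hg t)) < b ∧
    (θ t < 1 → C0 (ρ (hg t) * cos (S.al (hg t)) - ρ (hx t) * cos (S.al (hx t)))
      (b - ρ (hg t) * cos (S.al (hg t))) (ρ (hx t) * sin (S.al (hx t)))
      (ρ (hg t) * sin (S.al (hg t))) (ν t) (θ t)) ∧
    (1 < θ t → CP (ρ (hg t) * cos (S.al (hg t)) - ρ (hx t) * cos (S.al (hx t)))
      (b - ρ (hg t) * cos (S.al (hg t))) (ρ (hx t) * sin (S.al (hx t)))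
      (ρ (hg t) * sin (S.al (hg t))) (ν t) (π - θ t))
  G : Sym2 D.K → Fin (NN m)
  cover : ∀ t, (∃ k, t = if k = D.sv then S.ts else S.ta k) ∨ (∃ k, t = (e0 k).getD (tσ k)) ∨
    ∃ i k, i ≠ k ∧ t = G s(i, k)
  hGs : ∀ k, k ≠ D.sv → G s(D.sv, k) = (ep k).getD (S.tb k)
  hGh : ∀ t ∈ mids S, G s(hg t, hx t) = t
  hGo : ∀ i k, opR D i k → (∀ t ∈ mids S, s(i, k) ≠ s(hg t, hx t)) → G s(i, k) = S.tau s(i, k)
  hGf : ∀ i k, i ≠ k → isF D i → isF D k → (∀ t ∈ mids S, s(i, k) ≠ s(hg t, hx t)) →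
    (15 / 100 ≤ θ (G s(i, k)) ∧ θ (G s(i, k)) ≤ 136 / 100) ∨
      ¬ restr D i k ∧ qi q 9 ≤ θ (G s(i, k)) ∧ θ (G s(i, k)) ≤ π - qi q 9

/-- existence of the stages -/
lemma det_stg (hSTB : ST_STB) (hTOP : ST_TOP) (hSCALE : ST_SCALE) (hHOST : ST_HOST)
    (hASSIGN : ST_ASSIGN) :
    ∀ᶠ q : ℕ in atTop, ∀ m : ℕ, q ^ 1000 ≤ m → m ≤ 2 * q ^ 1000 → ∀ D : Lay q m,
      ∀ θ : Fin (NN m) → ℝ, Good q m θ → Nonempty (Stg D θ) := by
  filter_upwards [hSTB, hTOP, hSCALE, hHOST, hASSIGN, eventually_gt_atTop 1] with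
    q h1 h2 h3 h4 h5 hq1
  intro m hm1 hm2 D θ hθ
  obtain ⟨S⟩ := h1 m hm1 hm2 D θ hθ
  obtain ⟨ep, e0, t1, t2, t3, t4, t5, t6⟩ := h2 m hm1 hm2 D θ hθ S
  obtain ⟨b, ρ, tσ, ns, s1, s2, s3, s4, s5, s6, s7, s8, s9, s10, s11, s12, s13⟩ :=
    h3 m hm1 hm2 D θ hθ S ep e0 (fun k t h => ⟨(t1 k t h).1, (t1 k t h).2.1⟩)
      (fun k t h => ⟨(t4 k t h).1, (t4 k t h).2.1⟩)
  obtain ⟨hg, hx, ν, u1, u2, u3, u4, u5⟩ := h4 m hm1 hm2 D θ hθ b (fun k => ρ k * cos (S.al k))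
    (fun k => ρ k * sin (S.al k)) s1 s12 s13 (mids S) (by
      intro t ht
      simp only [mids, mem_filter] at ht
      exact ht.2.2)
  obtain ⟨G, g1, g2, g3, g4, g5⟩ := h5 m hm1 hm2 D θ hθ S ep e0 t1 t2 t3 t4 t5 t6 tσ s4 s5 hg hx
    u1 u2
  exact ⟨{ S := S, ep := ep, e0 := e0, ep_ty := t1, e0_ty := t4, b := b, ρ := ρ, tσ := tσ,
           ns := ns, hb := s1, hρ := s2, hρhv := s3, hσ := fun k => (s4 k).2, hσb := s6,
           hσk := s7, hep := s8, he0 := s9, hρx := s10, hFH := s11, hg := hg, hx := hx, ν := ν,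
           hgx := u1, hinj := u2, hν := u3, hνs := u4, hhost := u5, G := G, cover := g1,
           hGs := g2, hGh := g3, hGo := g4, hGf := g5 }⟩

section

variable {q m : ℕ} {D : Lay q m} {θ : Fin (NN m) → ℝ} (T : Stg D θ)

noncomputable def Stg.p (k : D.K) : ℝ := T.ρ k * cos (T.S.al k)

noncomputable def Stg.s (k : D.K) : ℝ := T.ρ k * sin (T.S.al k)

/-- the pair hosts a middle extreme -/
def Stg.hosted (i k : D.K) : Prop := ∃ t ∈ mids T.S, s(i, k) = s(T.hg t, T.hx t)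

/-- the row of the special vertex -/
noncomputable def Stg.row (k : D.K) : ℝ :=
  match T.ep k with
  | some _ => T.ns k
  | none => (cos (θ (T.S.tb k)) - cos (T.S.al D.sv) * cos (T.S.al k)) /
      (sin (T.S.al D.sv) * sin (T.S.al k))

noncomputable def Stg.nO (i k : D.K) : ℝ :=
  (cos (θ (T.G s(i, k))) - cos (T.S.al i) * cos (T.S.al k)) /
    (sin (T.S.al i) * sin (T.S.al k))

/-- the hosted target -/
noncomputable def Stg.ht {i k : D.K} (h : T.hosted i k) : Fin (NN m) := Classical.choose h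

/-- the matrix without the flexible entries -/
noncomputable def Stg.n1 (i k : D.K) : ℝ :=
  if i = k then 1
  else if i = D.sv then T.row k
  else if k = D.sv then T.row i
  else if h : T.hosted i k then T.ν (T.ht h)
  else if isF D i ∧ isF D k then 0
  else T.nO i k

def Stg.flex (i k : D.K) : Prop := i ≠ k ∧ isF D i ∧ isF D k ∧ ¬ T.hosted i k

lemma Stg.hosted_symm {i k : D.K} : T.hosted i k ↔ T.hosted k i := by
  unfold Stg.hosted
  rw [Sym2.eq_swap]

lemma Stg.flex_symm {i k : D.K} : T.flex i k ↔ T.flex k i := by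
  unfold Stg.flex
  rw [T.hosted_symm]
  constructor <;> rintro ⟨a, b, c, d⟩ <;> exact ⟨a.symm, c, b, d⟩

lemma Stg.nO_symm (i k : D.K) : T.nO i k = T.nO k i := by
  unfold Stg.nO
  rw [Sym2.eq_swap, mul_comm (cos (T.S.al i)), mul_comm (sin (T.S.al i))]

lemma Stg.host_choose {i k : D.K} (h : T.hosted i k) :
    T.ht h ∈ mids T.S ∧ s(i, k) = s(T.hg (T.ht h), T.hx (T.ht h)) :=
  Classical.choose_spec h

lemma Stg.host_unique {t t' : Fin (NN m)} (h : t ∈ mids T.S) (h' : t' ∈ mids T.S)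
    (he : s(T.hg t, T.hx t) = s(T.hg t', T.hx t')) : t = t' := by
  rw [Sym2.eq_iff] at he
  rcases he with ⟨h1, h2⟩ | ⟨h1, h2⟩
  · exact T.hinj t h t' h' h1 h2
  · have h3 := (T.hgx t h).1
    have h4 := (T.hgx t' h').2.1
    rw [h1, h4] at h3
    exact absurd h3 (by decide)

lemma Stg.n1_symm (i k : D.K) : T.n1 i k = T.n1 k i := by
  unfold Stg.n1
  by_cases h1 : i = k
  · subst h1; rfl
  rw [if_neg h1, if_neg (Ne.symm h1)]
  by_cases h2 : i = D.sv
  · have h3 : k ≠ D.sv := fun h => h1 (h2.trans h.symm)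
    rw [if_pos h2, if_neg h3, if_pos h2]
  rw [if_neg h2]
  by_cases h3 : k = D.sv
  · rw [if_pos h3, if_pos h3]
  rw [if_neg h3, if_neg h3, if_neg h2]
  by_cases h4 : T.hosted i k
  · have h5 : T.hosted k i := T.hosted_symm.1 h4
    rw [dif_pos h4, dif_pos h5]
    obtain ⟨a1, a2⟩ := T.host_choose h4
    obtain ⟨b1, b2⟩ := T.host_choose h5
    congr 1
    apply T.host_unique a1 b1
    rw [← a2, ← b2, Sym2.eq_swap]
  · have h5 : ¬ T.hosted k i := fun h => h4 (T.hosted_symm.1 h)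
    rw [dif_neg h4, dif_neg h5]
    by_cases h6 : isF D i ∧ isF D k
    · rw [if_pos h6, if_pos ⟨h6.2, h6.1⟩]
    · rw [if_neg h6, if_neg (fun h => h6 ⟨h.2, h.1⟩), T.nO_symm]

lemma Stg.n1_diag (k : D.K) : T.n1 k k = 1 := by
  unfold Stg.n1; rw [if_pos rfl]

lemma Stg.n1_sv {k : D.K} (hk : k ≠ D.sv) : T.n1 D.sv k = T.row k := by
  unfold Stg.n1; rw [if_neg hk.symm, if_pos rfl]

lemma isF_ne_sv {k : D.K} (h : isF D k) : k ≠ D.sv := by
  rintro rfl
  have h1 := (D.ty_s D.sv).2 rfl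
  rcases h with h | ⟨h, _⟩ <;> rw [h1] at h <;> exact absurd h (by decide)

lemma ty_ne_sv {k : D.K} (h : D.ty k ≠ Ty.s) : k ≠ D.sv := by
  rintro rfl
  exact h ((D.ty_s D.sv).2 rfl)

lemma Stg.n1_host {t : Fin (NN m)} (ht : t ∈ mids T.S) : T.n1 (T.hx t) (T.hg t) = T.ν t := by
  obtain ⟨a1, a2, a3⟩ := T.hgx t ht
  have h1 : T.hx t ≠ T.hg t := by
    intro h; rw [h, a1] at a2; exact absurd a2 (by decide)
  have h2 : T.hx t ≠ D.sv := ty_ne_sv (by rw [a2]; decide)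
  have h3 : T.hg t ≠ D.sv := ty_ne_sv (by rw [a1]; decide)
  have h4 : T.hosted (T.hx t) (T.hg t) := ⟨t, ht, Sym2.eq_swap⟩
  unfold Stg.n1
  rw [if_neg h1, if_neg h2, if_neg h3, dif_pos h4]
  obtain ⟨b1, b2⟩ := T.host_choose h4
  congr 1
  apply T.host_unique b1 ht
  rw [← b2, Sym2.eq_swap]

lemma Stg.n1_flex {i k : D.K} (h : T.flex i k) : T.n1 i k = 0 := by
  obtain ⟨h1, h2, h3, h4⟩ := h
  unfold Stg.n1
  rw [if_neg h1, if_neg (isF_ne_sv h2), if_neg (isF_ne_sv h3), dif_neg h4, if_pos ⟨h2, h3⟩]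

lemma Stg.n1_op {i k : D.K} (h : opR D i k) (h4 : ¬ T.hosted i k) : T.n1 i k = T.nO i k := by
  obtain ⟨h1, h2, h3, h5⟩ := h
  unfold Stg.n1
  rw [if_neg h1, if_neg h2, if_neg h3, dif_neg h4, if_neg h5]

lemma Stg.not_host {i k : D.K} (h4 : ¬ T.hosted i k) :
    ∀ t ∈ mids T.S, s(i, k) ≠ s(T.hg t, T.hx t) := fun t ht h => h4 ⟨t, ht, h⟩


/-! ## Facts about the angles -/

lemma Stg.al_ne {k : D.K} (hk : k ≠ D.sv) : T.S.al k = θ (T.S.ta k) := by
  unfold StB.al; rw [if_neg hk]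

lemma Stg.al_sv : T.S.al D.sv = θ T.S.ts := by
  unfold StB.al; rw [if_pos rfl]

lemma good_lt_pi (hθ : Good q m θ) (t : Fin (NN m)) : θ t < π := by
  have h3 := hθ.top t
  have h4 : (0 : ℝ) ≤ qi q 2005 := by unfold qi; positivity
  linarith

lemma Stg.al_pos (hθ : Good q m θ) (k : D.K) : 0 < T.S.al k := by
  unfold StB.al; split_ifs <;> exact hθ.pos _

lemma Stg.al_lt (hθ : Good q m θ) (k : D.K) : T.S.al k < π := by
  unfold StB.al; split_ifs <;> exact good_lt_pi hθ _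

lemma Stg.sin_pos (hθ : Good q m θ) (k : D.K) : 0 < sin (T.S.al k) :=
  Real.sin_pos_of_pos_of_lt_pi (T.al_pos hθ k) (T.al_lt hθ k)

lemma Stg.s_pos (hθ : Good q m θ) (k : D.K) : 0 < T.s k :=
  mul_pos (T.hρ k) (T.sin_pos hθ k)

/-- the bound for the entries of the pairs `OP` -/
lemma Stg.n1_bd (hθ : Good q m θ) {i k : D.K} (h : opR D i k) (h4 : ¬ T.hosted i k) :
    |T.n1 i k| ≤ bd D i k := by
  rw [T.n1_op h h4]
  unfold Stg.nO
  rw [T.hGo i k h (T.not_host h4)]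
  have h1 := T.S.tau_n i k h
  have hi := T.sin_pos hθ i
  have hk := T.sin_pos hθ k
  rw [← T.al_ne h.2.1, ← T.al_ne h.2.2.1] at h1
  rw [abs_div, abs_of_pos (mul_pos hi hk), div_le_iff₀ (mul_pos hi hk)]
  exact h1

lemma not_hosted_of_h {i k : D.K} (h : D.ty i = Ty.h) : ¬ T.hosted i k := by
  rintro ⟨t, ht, he⟩
  obtain ⟨a1, a2, a3⟩ := T.hgx t ht
  rw [Sym2.eq_iff] at he
  rcases he with ⟨h1, h2⟩ | ⟨h1, h2⟩
  · rw [h1, a1] at h; exact absurd h (by decide)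
  · rw [h1, a2] at h; exact absurd h (by decide)

lemma not_isF_of_h {i : D.K} (h : D.ty i = Ty.h) : ¬ isF D i := by
  rintro (h' | ⟨h', _⟩) <;> rw [h] at h' <;> exact absurd h' (by decide)

lemma opR_of_h {i k : D.K} (h : D.ty i = Ty.h) (hk : isF D k) : opR D i k := by
  refine ⟨?_, ty_ne_sv (by rw [h]; decide), isF_ne_sv hk, fun h' => not_isF_of_h h h'.1⟩
  rintro rfl
  exact not_isF_of_h h hk

lemma not_high_of_h {i : D.K} (h : D.ty i = Ty.h) : ¬ high D i := by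
  rintro ⟨h', _⟩; rw [h] at h'; exact absurd h' (by decide)

lemma not_high_of_F {i : D.K} (h : isF D i) : ¬ high D i := by
  rintro ⟨h', h2⟩
  rcases h with h | ⟨h, h3⟩
  · rw [h] at h'; exact absurd h' (by decide)
  · omega

lemma Stg.n1_hF (hθ : Good q m θ) {i k : D.K} (h : D.ty i = Ty.h) (hk : isF D k) :
    |T.n1 i k| ≤ qi q 955 := by
  have h1 := T.n1_bd hθ (opR_of_h h hk) (not_hosted_of_h T h)
  unfold bd at h1
  rwa [if_neg (by rintro (h' | h'); exact not_high_of_h h h'; exact not_high_of_F hk h')] at h1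

/-- existence of hubs -/
lemma Stg.hubs (hθ : Good q m θ)
    (hFLEX : ∀ (p s : D.K → ℝ) (n : D.K → D.K → ℝ), (∀ i k, n i k = n k i) →
      (∀ k, n k k = 1) →
      (∀ k, isF D k ∨ D.ty k = Ty.h → |p k - D.pos k| ≤ qi q 860 ∧
        |s k - D.rad k| ≤ qi q 860) →
      (∀ i k, D.ty i = Ty.h → isF D k → |n i k| ≤ qi q 955) →
      ∀ (i k : D.K) (θ : ℝ), i ≠ k → isF D i → isF D k → 
        (15 / 100 ≤ θ ∧ θ ≤ 136 / 100 ∨ ¬ restr D i k ∧ qi q 9 ≤ θ ∧ θ ≤ π - qi q 9) →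
        ∃ j j' : D.K, D.ty j = Ty.h ∧ D.ty j' = Ty.h ∧
          0 < dd p s n i j ∧ 0 < dd p s n k j ∧ 0 < dd p s n i j' ∧ 0 < dd p s n k j' ∧
          0 ≤ hubN p s n i k j θ ∧ hubN p s n i k j θ ≤ qi q 775 ∧
          -qi q 775 ≤ hubN p s n i k j' θ ∧ hubN p s n i k j' θ ≤ 0) (e : Sym2 D.K) :
    ∃ j j' : D.K, ∀ i k, e = s(i, k) → T.flex i k →
      D.ty j = Ty.h ∧ D.ty j' = Ty.h ∧
          0 < dd T.p T.s T.n1 i j ∧ 0 < dd T.p T.s T.n1 k j ∧
          0 < dd T.p T.s T.n1 i j' ∧ 0 < dd T.p T.s T.n1 k j' ∧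
          0 ≤ hubN T.p T.s T.n1 i k j (θ (T.G e)) ∧
          hubN T.p T.s T.n1 i k j (θ (T.G e)) ≤ qi q 775 ∧
          -qi q 775 ≤ hubN T.p T.s T.n1 i k j' (θ (T.G e)) ∧
          hubN T.p T.s T.n1 i k j' (θ (T.G e)) ≤ 0 := by
  induction e using Sym2.ind with
  | _ a c =>
    by_cases hf : T.flex a c
    · obtain ⟨j, j', h1, h2, h3, h4, h5, h6, h7, h8, h9, h10⟩ :=
        hFLEX T.p T.s T.n1 T.n1_symm T.n1_diag T.hFH (fun i k hi hk => T.n1_hF hθ hi hk) a c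
          (θ (T.G s(a, c))) hf.1 hf.2.1 hf.2.2.1
          (T.hGf a c hf.1 hf.2.1 hf.2.2.1 (T.not_host hf.2.2.2))
      refine ⟨j, j', fun i k he _ => ?_⟩
      rw [Sym2.eq_iff] at he
      rcases he with ⟨rfl, rfl⟩ | ⟨rfl, rfl⟩
      · exact ⟨h1, h2, h3, h4, h5, h6, h7, h8, h9, h10⟩
      · rw [det_hubN_symm _ _ _ T.n1_symm c a j, det_hubN_symm _ _ _ T.n1_symm c a j']
        exact ⟨h1, h2, h4, h3, h6, h5, h7, h8, h9, h10⟩
    · refine ⟨a, a, fun i k he hik => ?_⟩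
      rw [Sym2.eq_iff] at he
      rcases he with ⟨rfl, rfl⟩ | ⟨rfl, rfl⟩
      · exact absurd hik hf
      · exact absurd (T.flex_symm.1 hik) hf


/-! ## The Frobenius norm of the non-flexible part -/

noncomputable def Stg.rowO (k : D.K) : ℝ :=
  (cos (θ (T.S.tb k)) - cos (T.S.al D.sv) * cos (T.S.al k)) /
      (sin (T.S.al D.sv) * sin (T.S.al k))

lemma Stg.row_sq (k : D.K) :
    T.row k ^ 2 ≤ T.rowO k ^ 2 + if D.ty k = Ty.xp then (qi q 330) ^ 2 else 0 := by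
  unfold Stg.row
  rcases h : T.ep k with _ | t
  · simp only
    have : (0 : ℝ) ≤ if D.ty k = Ty.xp then (qi q 330) ^ 2 else 0 := by
      split_ifs <;> positivity
    unfold Stg.rowO
    linarith
  · simp only
    have h1 := (T.ep_ty k t h).1
    have h2 := (T.hep k t h).2.1
    rw [if_pos h1]
    have h3 : T.ns k ^ 2 ≤ (qi q 330) ^ 2 := by
      rw [← sq_abs]
      exact pow_le_pow_left₀ (abs_nonneg _) h2 2
    have h4 := sq_nonneg (T.rowO k)
    linarith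

lemma det_sum_pair {K : Type} [Fintype K] (a b : K) (c : ℝ) (hc : 0 ≤ c) :
    ∑ i, ∑ k, (if s(i, k) = s(a, b) then c else 0) ≤ 2 * c := by
  have h1 : ∀ i k : K, (if s(i, k) = s(a, b) then c else 0) ≤
      (if i = a then (if k = b then c else 0) else 0) +
        (if i = b then (if k = a then c else 0) else 0) := by
    intro i k
    by_cases h : s(i, k) = s(a, b)
    · rw [if_pos h]
      rw [Sym2.eq_iff] at h
      rcases h with ⟨h1, h2⟩ | ⟨h1, h2⟩
      · rw [if_pos h1, if_pos h2]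
        have : (0 : ℝ) ≤ if i = b then (if k = a then c else 0) else 0 := by
          split_ifs <;> first | exact hc | exact le_rfl
        linarith
      · rw [if_pos h1, if_pos h2]
        have : (0 : ℝ) ≤ if i = a then (if k = b then c else 0) else 0 := by
          split_ifs <;> first | exact hc | exact le_rfl
        linarith
    · rw [if_neg h]
      have h1 : (0 : ℝ) ≤ if i = b then (if k = a then c else 0) else 0 := by
        split_ifs <;> first | exact hc | exact le_rfl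
      have h2 : (0 : ℝ) ≤ if i = a then (if k = b then c else 0) else 0 := by
        split_ifs <;> first | exact hc | exact le_rfl
      linarith
  calc ∑ i, ∑ k, (if s(i, k) = s(a, b) then c else 0)
      ≤ ∑ i, ∑ k, ((if i = a then (if k = b then c else 0) else 0) +
        (if i = b then (if k = a then c else 0) else 0)) :=
        sum_le_sum fun i _ => sum_le_sum fun k _ => h1 i k
    _ = 2 * c := by
        simp only [sum_add_distrib]
        have h2 : ∀ x y : K, ∑ i : K, ∑ k : K, (if i = x then (if k = y then c else 0) else 0) =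
            c := by
          intro x y
          rw [Finset.sum_eq_single x]
          · simp
          · intro i _ hi; simp [hi]
          · simp
        rw [h2, h2]; ring

lemma Stg.point (hθ : Good q m θ) (i k : D.K) :
    (T.n1 i k - if i = k then 1 else 0) ^ 2 ≤
      (if i = D.sv then (if k = D.sv then 0 else T.row k ^ 2) else 0) +
      (if k = D.sv then (if i = D.sv then 0 else T.row i ^ 2) else 0) +
      ∑ t ∈ mids T.S, (if s(i, k) = s(T.hg t, T.hx t) then T.ν t ^ 2 else 0) +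
      (if opR D i k then bd D i k ^ 2 else 0) := by
  have e1 : (0 : ℝ) ≤ if i = D.sv then (if k = D.sv then 0 else T.row k ^ 2) else 0 := by
    split_ifs <;> positivity
  have e2 : (0 : ℝ) ≤ if k = D.sv then (if i = D.sv then 0 else T.row i ^ 2) else 0 := by
    split_ifs <;> positivity
  have e3 : (0 : ℝ) ≤ ∑ t ∈ mids T.S,
      (if s(i, k) = s(T.hg t, T.hx t) then T.ν t ^ 2 else 0) := by
    apply sum_nonneg; intro t _; split_ifs <;> positivity
  have e4 : (0 : ℝ) ≤ if opR D i k then bd D i k ^ 2 else 0 := by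
    split_ifs <;> positivity
  by_cases h1 : i = k
  · subst h1
    rw [T.n1_diag, if_pos rfl]
    have : (1 - 1 : ℝ) ^ 2 = 0 := by norm_num
    rw [this]; positivity
  rw [if_neg h1, sub_zero]
  by_cases h2 : i = D.sv
  · subst h2
    have h3 : k ≠ D.sv := fun h => h1 h.symm
    rw [T.n1_sv h3]
    rw [if_pos rfl, if_neg h3] at e1 ⊢
    linarith
  by_cases h3 : k = D.sv
  · subst h3
    rw [T.n1_symm, T.n1_sv h2]
    rw [if_pos (rfl : D.sv = D.sv), if_neg h2] at e2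
    rw [if_neg h2, if_pos (rfl : D.sv = D.sv), if_neg h2]
    linarith
  by_cases h4 : T.hosted i k
  · obtain ⟨a1, a2⟩ := T.host_choose h4
    have h5 : T.n1 i k = T.ν (T.ht h4) := by
      unfold Stg.n1
      rw [if_neg h1, if_neg h2, if_neg h3, dif_pos h4]
    have h6 : T.ν (T.ht h4) ^ 2 ≤ ∑ t ∈ mids T.S,
      (if s(i, k) = s(T.hg t, T.hx t) then T.ν t ^ 2 else 0) := by
      have h7 := single_le_sum (f := fun t => if s(i, k) = s(T.hg t, T.hx t) then T.ν t ^ 2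
        else 0) (s := mids T.S) (fun t _ => by positivity) a1
      rwa [if_pos a2] at h7
    rw [h5]; linarith
  by_cases h6 : isF D i ∧ isF D k
  · rw [T.n1_flex ⟨h1, h6.1, h6.2, h4⟩]
    have : (0 : ℝ) ^ 2 = 0 := by norm_num
    rw [this]; positivity
  · have h7 : opR D i k := ⟨h1, h2, h3, h6⟩
    have h8 := T.n1_bd hθ h7 h4
    have h9 : T.n1 i k ^ 2 ≤ bd D i k ^ 2 := by
      rw [← sq_abs]
      exact pow_le_pow_left₀ (abs_nonneg _) h8 2
    rw [if_pos h7] at e4 ⊢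
    linarith

lemma det_sum_row {K : Type} [Fintype K] (v : K) (f : K → ℝ) :
    ∑ i, ∑ k, (if i = v then (if k = v then 0 else f k) else 0) =
      ∑ k ∈ univ.filter (fun k => k ≠ v), f k := by
  rw [Finset.sum_eq_single v]
  · rw [sum_filter]
    apply sum_congr rfl
    intro k _
    by_cases h : k = v <;> simp [h]
  · intro i _ hi; simp [hi]
  · simp

lemma Stg.sumA (hθ : Good q m θ) (hq : 1000 ≤ q)
    (hSUM : ∑ i, ∑ k, (if opR D i k then bd D i k ^ 2 else 0) ≤ 1 / 100)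
    (hSROW : ∑ k ∈ univ.filter (fun k => k ≠ D.sv), T.rowO k ^ 2 ≤ 1 / 1000) :
    ∑ i, ∑ k, (T.n1 i k - if i = k then 1 else 0) ^ 2 ≤ 1 / 16 := by
  have h0 : ∑ k ∈ univ.filter (fun k => k ≠ D.sv), T.row k ^ 2 ≤ 2 / 1000 := by
    have h1 : ∑ k ∈ univ.filter (fun k => k ≠ D.sv), T.row k ^ 2 ≤
        ∑ k ∈ univ.filter (fun k => k ≠ D.sv), T.rowO k ^ 2 +
          ∑ k ∈ univ.filter (fun k => k ≠ D.sv),
            (if D.ty k = Ty.xp then (qi q 330) ^ 2 else 0) := by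
      rw [← sum_add_distrib]
      exact sum_le_sum fun k _ => T.row_sq k
    have h2 : ∑ k ∈ univ.filter (fun k => k ≠ D.sv),
        (if D.ty k = Ty.xp then (qi q 330) ^ 2 else 0) ≤ 1 / 1000 := by
      calc ∑ k ∈ univ.filter (fun k => k ≠ D.sv),
            (if D.ty k = Ty.xp then (qi q 330) ^ 2 else 0)
          ≤ ∑ k, (if D.ty k = Ty.xp then (qi q 330) ^ 2 else 0) := by
            apply sum_le_sum_of_subset_of_nonneg (filter_subset _ _)
            intro k _ _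
            split_ifs <;> positivity
        _ = ((q ^ 655 : ℕ) : ℝ) * (qi q 330) ^ 2 := by
            rw [← sum_filter, sum_const, D.card_xp, nsmul_eq_mul]
        _ = qi q 5 := by
            have hq0 : (q : ℝ) ≠ 0 := by
              have : 0 < q := by omega
              exact_mod_cast this.ne'
            unfold qi
            push_cast
            rw [inv_pow, ← pow_mul, ← div_eq_mul_inv, div_eq_iff (by positivity)]
            rw [show 330 * 2 = 655 + 5 by norm_num, pow_add]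
            field_simp
        _ ≤ 1 / 1000 := by
            unfold qi
            rw [inv_eq_one_div]
            apply one_div_le_one_div_of_le (by norm_num)
            have h3 : (1000 : ℝ) ≤ q := by exact_mod_cast hq
            calc (1000 : ℝ) ≤ q := h3
              _ = (q : ℝ) ^ 1 := (pow_one _).symm
              _ ≤ (q : ℝ) ^ 5 := pow_le_pow_right₀ (by linarith) (by norm_num)
    linarith
  have h3 : ∑ i, ∑ k, ∑ t ∈ mids T.S, (if s(i, k) = s(T.hg t, T.hx t) then T.ν t ^ 2 else 0) ≤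
      2 / 1000 := by
    have h4 : ∑ i, ∑ k, ∑ t ∈ mids T.S,
        (if s(i, k) = s(T.hg t, T.hx t) then T.ν t ^ 2 else 0) =
        ∑ t ∈ mids T.S, ∑ i, ∑ k,
          (if s(i, k) = s(T.hg t, T.hx t) then T.ν t ^ 2 else 0) := by
      calc ∑ i, ∑ k, ∑ t ∈ mids T.S,
            (if s(i, k) = s(T.hg t, T.hx t) then T.ν t ^ 2 else 0) =
          ∑ i, ∑ t ∈ mids T.S, ∑ k,
            (if s(i, k) = s(T.hg t, T.hx t) then T.ν t ^ 2 else 0) :=
            sum_congr rfl fun i _ => sum_comm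
        _ = _ := sum_comm
    rw [h4]
    calc ∑ t ∈ mids T.S, ∑ i, ∑ k,
          (if s(i, k) = s(T.hg t, T.hx t) then T.ν t ^ 2 else 0)
        ≤ ∑ t ∈ mids T.S, 2 * T.ν t ^ 2 :=
          sum_le_sum fun t _ => det_sum_pair _ _ _ (by positivity)
      _ = 2 * ∑ t ∈ mids T.S, T.ν t ^ 2 := by rw [mul_sum]
      _ ≤ 2 / 1000 := by have := T.hνs; linarith
  calc ∑ i, ∑ k, (T.n1 i k - if i = k then 1 else 0) ^ 2
      ≤ ∑ i, ∑ k, ((if i = D.sv then (if k = D.sv then 0 else T.row k ^ 2) else 0) +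
      (if k = D.sv then (if i = D.sv then 0 else T.row i ^ 2) else 0) +
      ∑ t ∈ mids T.S, (if s(i, k) = s(T.hg t, T.hx t) then T.ν t ^ 2 else 0) +
      (if opR D i k then bd D i k ^ 2 else 0)) :=
        sum_le_sum fun i _ => sum_le_sum fun k _ => T.point hθ i k
    _ ≤ 2 / 1000 + 2 / 1000 + 2 / 1000 + 1 / 100 := by
        simp only [sum_add_distrib]
        gcongr
        · rw [det_sum_row]; exact h0
        · rw [sum_comm, det_sum_row]; exact h0
    _ ≤ 1 / 16 := by norm_num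


/-! ## The final matrix -/

/-- the matrix with a flexible part `x` -/
noncomputable def Stg.n (x : D.K → D.K → ℝ) (i k : D.K) : ℝ := T.n1 i k + x i k

/-- properties of the flexible part -/
structure FlexOK (x : D.K → D.K → ℝ) : Prop where
  symm : ∀ i k, x i k = x k i
  zero : ∀ i k, ¬ T.flex i k → x i k = 0
  hub : ∀ i k, T.flex i k → ∃ j, D.ty j = Ty.h ∧ 0 < dd T.p T.s T.n1 i j ∧
    0 < dd T.p T.s T.n1 k j ∧ x i k = hubN T.p T.s T.n1 i k j (θ (T.G s(i, k)))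
  sq : ∑ i, ∑ k, (∑ j, x i j * x j k) ^ 2 ≤ 1 / 256

lemma Stg.exists_flex (hq : 1000 ≤ q) (hm1 : 1 ≤ m) (hm2 : m ≤ 2 * q ^ 1000) (hSIGN : ST_SIGN)
    (hub : ∀ e : Sym2 D.K, ∃ j j' : D.K, ∀ i k, e = s(i, k) → T.flex i k →
      D.ty j = Ty.h ∧ D.ty j' = Ty.h ∧
          0 < dd T.p T.s T.n1 i j ∧ 0 < dd T.p T.s T.n1 k j ∧
          0 < dd T.p T.s T.n1 i j' ∧ 0 < dd T.p T.s T.n1 k j' ∧
          0 ≤ hubN T.p T.s T.n1 i k j (θ (T.G e)) ∧
          hubN T.p T.s T.n1 i k j (θ (T.G e)) ≤ qi q 775 ∧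
          -qi q 775 ≤ hubN T.p T.s T.n1 i k j' (θ (T.G e)) ∧
          hubN T.p T.s T.n1 i k j' (θ (T.G e)) ≤ 0) :
    ∃ x : D.K → D.K → ℝ, FlexOK T x := by
  choose J J' hJ using hub
  have hδ : 0 ≤ qi q 775 := by unfold qi; positivity
  obtain ⟨x, hx1, hx2, hx3, hx4⟩ := hSIGN D.K (qi q 775)
    (fun i k => if T.flex i k then hubN T.p T.s T.n1 i k (J s(i, k)) (θ (T.G s(i, k))) else 0)
    (fun i k => if T.flex i k then hubN T.p T.s T.n1 i k (J' s(i, k)) (θ (T.G s(i, k))) else 0)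
    hδ (by
      intro i k
      rw [det_hubN_symm _ _ _ T.n1_symm i k, @Sym2.eq_swap _ i k]
      by_cases h : T.flex i k
      · rw [if_pos h, if_pos (T.flex_symm.1 h)]
      · rw [if_neg h, if_neg (fun h' => h (T.flex_symm.1 h'))]) (by
      intro i k
      rw [det_hubN_symm _ _ _ T.n1_symm i k, @Sym2.eq_swap _ i k]
      by_cases h : T.flex i k
      · rw [if_pos h, if_pos (T.flex_symm.1 h)]
      · rw [if_neg h, if_neg (fun h' => h (T.flex_symm.1 h'))]) (by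
      intro i k
      by_cases h : T.flex i k
      · rw [if_pos h]
        obtain ⟨_, _, _, _, _, _, h7, h8, _, _⟩ := hJ s(i, k) i k rfl h
        exact ⟨h7, h8⟩
      · rw [if_neg h]; exact ⟨le_rfl, hδ⟩) (by
      intro i k
      by_cases h : T.flex i k
      · rw [if_pos h]
        obtain ⟨_, _, _, _, _, _, _, _, h9, h10⟩ := hJ s(i, k) i k rfl h
        exact ⟨h9, h10⟩
      · rw [if_neg h]; exact ⟨by linarith, le_rfl⟩)
  refine ⟨x, hx1, ?_, ?_, ?_⟩
  · intro i k h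
    by_cases hik : i = k
    · subst hik; exact hx2 i
    · rcases hx3 i k hik with h1 | h1
      · rw [if_neg h] at h1; exact h1
      · rw [if_neg h] at h1; exact h1
  · intro i k h
    obtain ⟨h1, h2, h3, h4, h5, h6, h7, h8, h9, h10⟩ := hJ s(i, k) i k rfl h
    rcases hx3 i k h.1 with h' | h'
    · rw [if_pos h] at h'
      exact ⟨J s(i, k), h1, h3, h4, h'⟩
    · rw [if_pos h] at h'
      exact ⟨J' s(i, k), h2, h5, h6, h'⟩
  · refine hx4.trans ?_
    have h1 : (Fintype.card D.K : ℝ) ≤ 2 * (q : ℝ) ^ 1000 := by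
      rw [D.card_K]
      have : m - 2 ≤ 2 * q ^ 1000 := by omega
      exact_mod_cast this
    have hq0 : (0 : ℝ) < q := by
      have : 0 < q := by omega
      exact_mod_cast this
    have hq3 : (1000 : ℝ) ≤ q := by exact_mod_cast hq
    calc 3 * (Fintype.card D.K : ℝ) ^ 3 * (qi q 775) ^ 4
        ≤ 3 * (2 * (q : ℝ) ^ 1000) ^ 3 * (qi q 775) ^ 4 := by gcongr
      _ = 24 / (q : ℝ) ^ 100 := by
          unfold qi
          rw [mul_pow, ← pow_mul, inv_pow, ← pow_mul, eq_div_iff (by positivity)]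
          have e1 : (q : ℝ) ^ (775 * 4) = (q : ℝ) ^ (1000 * 3) * (q : ℝ) ^ 100 := by
            rw [← pow_add]
          rw [e1]
          field_simp
          norm_num
      _ ≤ 24 / (q : ℝ) ^ 2 := by
          gcongr
          · linarith
          · norm_num
      _ ≤ 24 / 1000 ^ 2 := by gcongr
      _ ≤ 1 / 256 := by norm_num

variable {T}

lemma FlexOK.n_symm {x : D.K → D.K → ℝ} (hx : FlexOK T x) (i k : D.K) :
    T.n x i k = T.n x k i := by
  unfold Stg.n; rw [T.n1_symm, hx.symm]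

lemma FlexOK.n_diag {x : D.K → D.K → ℝ} (hx : FlexOK T x) (k : D.K) : T.n x k k = 1 := by
  unfold Stg.n; rw [T.n1_diag, hx.zero k k (fun h => h.1 rfl), add_zero]

lemma FlexOK.n_eq {x : D.K → D.K → ℝ} (hx : FlexOK T x) {i k : D.K} (h : ¬ T.flex i k) :
    T.n x i k = T.n1 i k := by
  unfold Stg.n; rw [hx.zero i k h, add_zero]

lemma FlexOK.pd {x : D.K → D.K → ℝ} (hx : FlexOK T x) (hPDL : ST_PDL)
    (hA : ∑ i, ∑ k, (T.n1 i k - if i = k then 1 else 0) ^ 2 ≤ 1 / 16) :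
    ∀ y : D.K → ℝ, y ≠ 0 → 0 < ∑ i, ∑ k, T.n x i k * y i * y k := by
  refine hPDL D.K (T.n x) (fun i k => T.n1 i k - if i = k then 1 else 0) x ?_ hx.symm hA hx.sq
  intro i k
  unfold Stg.n; ring


/-! ## All targets are realised -/

/-- numerical facts about the angles -/
structure AngOK (T : Stg D θ) : Prop where
  cos_pos : ∀ k, k ≠ D.sv → 0 < cos (T.S.al k)
  cos_sv : cos (T.S.al D.sv) < 0
  be_pos : ∀ k, k ≠ D.hv → 0 < T.S.be k ∧ T.S.be k < π

lemma angOK_of (T : Stg D θ) (hθ : Good q m θ) (hq : 1000 ≤ q)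
    (h1 : ∀ k, k ≠ D.sv → |T.S.al k - arctan (D.rad k / D.pos k)| ≤ qi q 1394 ∧
        qi q 1352 ≤ T.S.al k ∧ T.S.al k < π / 2 - qi q 23)
    (h2 : ∀ k, k ≠ D.sv → k ≠ D.hv → 45 / 100 ≤ T.S.be k ∧ T.S.be k ≤ 158 / 100)
    (h3 : 21 / 10 ≤ T.S.be D.sv ∧ T.S.be D.sv ≤ 27 / 10) : AngOK T := by
  have hq0 : 0 < q := by omega
  have hpi := Real.pi_gt_three
  refine ⟨fun k hk => ?_, ?_, fun k hk => ?_⟩
  · obtain ⟨_, a2, a3⟩ := h1 k hk
    have a4 := det_qi_pos hq0 23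
    have a5 := T.al_pos hθ k
    exact Real.cos_pos_of_mem_Ioo ⟨by linarith, by linarith⟩
  · rw [T.al_sv]
    have a1 := T.S.ts_lo
    have a2 := good_lt_pi hθ T.S.ts
    have a3 : qi q 1969 ≤ 1 := det_qi_le_one (by omega) _
    apply Real.cos_neg_of_pi_div_two_lt_of_lt
    · linarith
    · linarith
  · by_cases hs : k = D.sv
    · subst hs; constructor <;> linarith [h3.1, h3.2]
    · have := h2 k hs hk
      constructor <;> linarith [this.1, this.2]

lemma Stg.row_none {k : D.K} (h : T.ep k = none) : T.row k = T.rowO k := by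
  unfold Stg.row Stg.rowO; rw [h]

lemma Stg.row_some {k : D.K} {t : Fin (NN m)} (h : T.ep k = some t) : T.row k = T.ns k := by
  unfold Stg.row; rw [h]

lemma Stg.ep_none_of {k : D.K} (h : D.ty k ≠ Ty.xp) : T.ep k = none := by
  rcases h' : T.ep k with _ | t
  · rfl
  · exact absurd (T.ep_ty k t h').1 h

lemma FlexOK.n_sv {x : D.K → D.K → ℝ} (hx : FlexOK T x) {k : D.K} (hk : k ≠ D.sv) :
    T.n x D.sv k = T.row k := by
  rw [hx.n_eq (fun h => isF_ne_sv h.2.1 rfl), T.n1_sv hk]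

lemma not_hosted_hv {k : D.K} : ¬ T.hosted D.hv k := by
  rintro ⟨t, ht, he⟩
  have h := (D.ty_h0 D.hv).2 rfl
  obtain ⟨a1, a2, a3⟩ := T.hgx t ht
  rw [Sym2.eq_iff] at he
  rcases he with ⟨h1, h2⟩ | ⟨h1, h2⟩
  · rw [h1, a1] at h; exact absurd h (by decide)
  · rw [h1, a2] at h; exact absurd h (by decide)

lemma hv_ne_sv : D.hv ≠ D.sv := ty_ne_sv (by rw [(D.ty_h0 D.hv).2 rfl]; decide)

lemma not_isF_hv : ¬ isF D D.hv := by
  have h := (D.ty_h0 D.hv).2 rfl
  rintro (h' | ⟨h', _⟩) <;> rw [h] at h' <;> exact absurd h' (by decide)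

lemma opR_hv {k : D.K} (hk : k ≠ D.sv) (hk2 : k ≠ D.hv) : opR D D.hv k :=
  ⟨hk2.symm, hv_ne_sv, hk, fun h => not_isF_hv h.1⟩

/-- the value of `n hv k` -/
lemma FlexOK.n_hv {x : D.K → D.K → ℝ} (hx : FlexOK T x) {k : D.K} (hk : k ≠ D.hv) :
    T.n x D.hv k = (cos (T.S.be k) - cos (T.S.al D.hv) * cos (T.S.al k)) /
      (sin (T.S.al D.hv) * sin (T.S.al k)) := by
  by_cases hs : k = D.sv
  · subst hs
    rw [hx.n_symm, hx.n_sv hv_ne_sv,
      T.row_none (T.ep_none_of (by rw [(D.ty_h0 D.hv).2 rfl]; decide))]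
    unfold Stg.rowO StB.be
    rw [if_pos rfl, mul_comm (cos (T.S.al D.sv)), mul_comm (sin (T.S.al D.sv))]
  · rw [hx.n_eq (fun h => not_isF_hv h.2.1), T.n1_op (opR_hv hs hk) not_hosted_hv]
    unfold Stg.nO StB.be
    rw [if_neg hs, T.hGo _ _ (opR_hv hs hk) (T.not_host not_hosted_hv)]

lemma FlexOK.gram_eq (hθ : Good q m θ) {x : D.K → D.K → ℝ} {i k : D.K} {β : ℝ}
    (h : T.n x i k = (cos β - cos (T.S.al i) * cos (T.S.al k)) /
      (sin (T.S.al i) * sin (T.S.al k))) :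
    gram T.b T.p T.s (T.n x) (some (some i)) (some (some k)) = T.ρ i * T.ρ k * cos β := by
  have h1 := (T.sin_pos hθ i).ne'
  have h2 := (T.sin_pos hθ k).ne'
  show T.p i * T.p k + T.s i * T.s k * T.n x i k = _
  rw [h]
  unfold Stg.p Stg.s
  field_simp
  ring

lemma FlexOK.gram_self {x : D.K → D.K → ℝ} (hx : FlexOK T x) (k : D.K) :
    gram T.b T.p T.s (T.n x) (some (some k)) (some (some k)) = T.ρ k ^ 2 := by
  show T.p k * T.p k + T.s k * T.s k * T.n x k k = _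
  rw [hx.n_diag]
  unfold Stg.p Stg.s
  have := Real.sin_sq_add_cos_sq (T.S.al k)
  nlinarith [this]

lemma mids_cases {t : Fin (NN m)} (ht : t ∈ mids T.S) (hq : 1000 ≤ q) : θ t < 1 ∨ 1 < θ t := by
  have h1 : qi q 9 ≤ 1 := det_qi_le_one (by omega) _
  have hpi := Real.pi_gt_three
  simp only [mids, mem_filter] at ht
  rcases ht.2.2 with ⟨_, h⟩ | ⟨_, h⟩
  · left; linarith
  · right; linarith

/-- the pairs containing the special vertex -/
lemma FlexOK.cover_sv (hθ : Good q m θ) (hq : 1000 ≤ q) {x : D.K → D.K → ℝ}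
    (hx : FlexOK T x) (ha : AngOK T) (hGEOA : ST_GEOA) (hGEOC : ST_GEOC) {k : D.K}
    (hk : k ≠ D.sv) :
    ∃ a c e : Pt D.K, AngleIs (gram T.b T.p T.s (T.n x)) a c e (θ (T.G s(D.sv, k))) := by
  have hq0 : (0 : ℝ) < q := by
    have : 0 < q := by omega
    exact_mod_cast this
  have hb : 0 < T.b := lt_of_lt_of_le (by positivity) T.hb
  rw [T.hGs k hk]
  rcases h : T.ep k with _ | t
  · rw [Option.getD_none]
    refine ⟨_, _, _, (hGEOA D.K T.b T.p T.s T.ρ T.S.al (T.n x) hb T.hρ (T.al_pos hθ)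
      (T.al_lt hθ) (fun _ => rfl) (fun _ => rfl) hx.n_symm hx.n_diag).2 D.sv k _ ?_⟩
    rw [hx.n_sv hk, T.row_none h]; rfl
  · rw [Option.getD_some]
    obtain ⟨h1, h2, h3⟩ := T.hep k t h
    have hty := (T.ep_ty k t h).1
    have e1 : T.n x D.sv k = T.ns k := by rw [hx.n_sv hk, T.row_some h]
    have e2 : T.p D.sv < T.p k := by
      unfold Stg.p
      have := mul_pos (T.hρ k) (ha.cos_pos k hk)
      have := mul_neg_of_pos_of_neg (T.hρ D.sv) ha.cos_sv
      linarith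
    have e3 : T.p k < T.b := by
      unfold Stg.p
      have h4 := T.hρx k (Or.inl hty)
      have h5 := Real.cos_le_one (T.S.al k)
      have h6 := T.hρ k
      have h7 : T.ρ k * cos (T.S.al k) ≤ q := by nlinarith
      have h8 : (q : ℝ) < (q : ℝ) ^ 1967 := by
        have h9 : (1000 : ℝ) ≤ q := by exact_mod_cast hq
        calc (q : ℝ) = (q : ℝ) ^ 1 := (pow_one _).symm
          _ < (q : ℝ) ^ 1967 := pow_lt_pow_right₀ (by linarith) (by norm_num)
      linarith [T.hb]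
    have e4 : |T.n x D.sv k| < 1 := by
      rw [e1]
      refine lt_of_le_of_lt h2 ?_
      unfold qi
      apply inv_lt_one_of_one_lt₀
      exact one_lt_pow₀ (by exact_mod_cast (by omega : 1 < q)) (by norm_num)
    have h9 := (hGEOC D.K T.b T.p T.s (T.n x) D.sv k (π - θ t) hx.n_symm hx.n_diag
      (T.s_pos hθ _) (T.s_pos hθ _) e2 e3 e4).1 (by rw [e1]; exact h3)
    rw [sub_sub_cancel] at h9
    exact ⟨_, _, _, h9⟩

lemma FlexOK.cover (hθ : Good q m θ) (hq : 1000 ≤ q) {x : D.K → D.K → ℝ}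
    (hx : FlexOK T x) (ha : AngOK T) (hGEOA : ST_GEOA) (hGEOT : ST_GEOT) (hGEOH : ST_GEOH)
    (hGEOC : ST_GEOC) (t : Fin (NN m)) :
    ∃ a c e : Pt D.K, AngleIs (gram T.b T.p T.s (T.n x)) a c e (θ t) := by
  have hq0 : (0 : ℝ) < q := by
    have : 0 < q := by omega
    exact_mod_cast this
  have hb : 0 < T.b := lt_of_lt_of_le (by positivity) T.hb
  have hA := hGEOA D.K T.b T.p T.s T.ρ T.S.al (T.n x) hb T.hρ (T.al_pos hθ)
      (T.al_lt hθ) (fun _ => rfl) (fun _ => rfl) hx.n_symm hx.n_diag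
  rcases T.cover t with ⟨k, hk⟩ | ⟨k, hk⟩ | ⟨i, k, hik, hk⟩
  · have h1 := hA.1 k
    have h2 : T.S.al k = θ t := by
      rw [hk]; unfold StB.al; split_ifs <;> rfl
    rw [h2] at h1
    exact ⟨_, _, _, h1⟩
  · rcases h : T.e0 k with _ | t0
    · rw [h, Option.getD_none] at hk
      subst hk
      have hσ0 : 0 < θ (T.tσ k) := hθ.pos _
      have hσ1 := good_lt_pi hθ (T.tσ k)
      by_cases hkh : k = D.hv
      · subst hkh
        refine ⟨_, _, _, hGEOT D.K T.b T.p T.s (T.n x) (some (some D.hv)) (some none) 1 T.b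
          (T.S.al D.hv) _ hx.n_symm one_pos hb (T.al_pos hθ _) (T.al_lt hθ _) hσ0 hσ1 ?_ rfl ?_
          T.hσb⟩
        · rw [hx.gram_self, T.hρhv]
        · show T.b * T.p D.hv = _
          unfold Stg.p; rw [T.hρhv]; ring
      · obtain ⟨hβ0, hβ1⟩ := ha.be_pos k hkh
        rcases h' : T.ep k with _ | t1
        · refine ⟨_, _, _, hGEOT D.K T.b T.p T.s (T.n x) (some (some D.hv)) (some (some k))
            (T.ρ D.hv) (T.ρ k) (T.S.be k) _ hx.n_symm (T.hρ _) (T.hρ _) hβ0 hβ1 hσ0 hσ1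
            (hx.gram_self _) (hx.gram_self _) (FlexOK.gram_eq hθ (hx.n_hv hkh)) ?_⟩
          rw [T.hρhv]
          exact T.hσk k hkh h' h
        · refine ⟨_, _, _, hGEOT D.K T.b T.p T.s (T.n x) (some (some k)) (some (some D.hv))
            (T.ρ k) (T.ρ D.hv) (T.S.be k) _ hx.n_symm (T.hρ _) (T.hρ _) hβ0 hβ1 hσ0 hσ1
            (hx.gram_self _) (hx.gram_self _) ?_ ?_⟩
          · apply FlexOK.gram_eq hθ
            rw [hx.n_symm, hx.n_hv hkh, mul_comm (cos (T.S.al k)), mul_comm (sin (T.S.al k))]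
          · rw [T.hρhv, div_one]
            exact (T.hep k t1 h').1
    · rw [h, Option.getD_some] at hk
      subst hk
      have hty := (T.e0_ty k t h).1
      have hks : k ≠ D.sv := ty_ne_sv (by rw [hty]; decide)
      refine ⟨_, _, _, hGEOT D.K T.b T.p T.s (T.n x) (some (some D.sv)) (some (some k))
            (T.ρ D.sv) (T.ρ k) (θ (T.S.tb k)) _ hx.n_symm (T.hρ _) (T.hρ _) (hθ.pos _)
            (good_lt_pi hθ _) (hθ.pos _) (good_lt_pi hθ _)
            (hx.gram_self _) (hx.gram_self _) ?_ (T.he0 k t h)⟩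
      apply FlexOK.gram_eq hθ
      rw [hx.n_sv hks, T.row_none (T.ep_none_of (by rw [hty]; decide))]
      rfl
  · by_cases hi : i = D.sv
    · subst hi
      rw [hk]
      exact hx.cover_sv hθ hq ha hGEOA hGEOC hik.symm
    by_cases hk' : k = D.sv
    · subst hk'
      rw [hk, Sym2.eq_swap]
      exact hx.cover_sv hθ hq ha hGEOA hGEOC hik
    by_cases hh : T.hosted i k
    · obtain ⟨t', ht', he⟩ := hh
      rw [he, T.hGh t' ht'] at hk
      subst hk
      obtain ⟨h1, h2, h3, h4⟩ := T.hhost t ht'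
      have e0 : T.n x (T.hx t) (T.hg t) = T.ν t := by
        rw [hx.n_eq (fun h => h.2.2.2 ⟨t, ht', Sym2.eq_swap⟩), T.n1_host ht']
      have e1 : |T.n x (T.hx t) (T.hg t)| < 1 := by
        rw [e0]; have := T.hν t ht'; linarith
      have hC := hGEOC D.K T.b T.p T.s (T.n x) (T.hx t) (T.hg t)
      rcases mids_cases ht' hq with h5 | h5
      · exact ⟨_, _, _, (hC (θ t) hx.n_symm hx.n_diag (T.s_pos hθ _) (T.s_pos hθ _) h1 h2
          e1).2 (by rw [e0]; exact h3 h5)⟩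
      · have h6 := (hC (π - θ t) hx.n_symm hx.n_diag (T.s_pos hθ _) (T.s_pos hθ _) h1 h2
          e1).1 (by rw [e0]; exact h4 h5)
        rw [sub_sub_cancel] at h6
        exact ⟨_, _, _, h6⟩
    · by_cases hF : isF D i ∧ isF D k
      · have hfl : T.flex i k := ⟨hik, hF.1, hF.2, hh⟩
        obtain ⟨j, j1, j2, j3, j4⟩ := hx.hub i k hfl
        have hj : ¬ isF D j := not_isF_of_h j1
        have n1 : T.n x i j = T.n1 i j := hx.n_eq (fun h => hj h.2.2.1)
        have n2 : T.n x k j = T.n1 k j := hx.n_eq (fun h => hj h.2.2.1)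
        have n3 : T.n x j k = T.n1 j k := hx.n_eq (fun h => hj h.2.1)
        have d1 : dd T.p T.s (T.n x) i j = dd T.p T.s T.n1 i j := by unfold dd; rw [n1]
        have d2 : dd T.p T.s (T.n x) k j = dd T.p T.s T.n1 k j := by unfold dd; rw [n2]
        have e1 : T.n x i k = hubN T.p T.s (T.n x) i k j (θ t) := by
          have e0 : T.n x i k = x i k := by
            unfold Stg.n; rw [T.n1_flex hfl, zero_add]
          rw [e0, j4, hk]
          unfold hubN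
          rw [d1, d2, n1, n3]
        exact ⟨_, _, _, hGEOH D.K T.b T.p T.s (T.n x) i k j (θ t) hx.n_symm hx.n_diag
          (T.s_pos hθ _) (T.s_pos hθ _) (by rw [d1]; exact j2) (by rw [d2]; exact j3) e1⟩
      · have hop : opR D i k := ⟨hik, hi, hk', hF⟩
        refine ⟨_, _, _, hA.2 i k (θ t) ?_⟩
        rw [hx.n_eq (fun h => hF ⟨h.2.1, h.2.2.1⟩), T.n1_op hop hh]
        unfold Stg.nO
        rw [hk]

end

/-- the deterministic theorem -/
theorem st_DET (hLAY : ST_LAY) (hSTB : ST_STB) (hTOP : ST_TOP) (hSCALE : ST_SCALE)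
    (hHOST : ST_HOST) (hASSIGN : ST_ASSIGN) (hALPHA : ST_ALPHA) (hFLEX : ST_FLEX)
    (hSUM : ST_SUM) (hSROW : ST_SROW) (hSIGN : ST_SIGN) (hPDL : ST_PDL) (hGEOA : ST_GEOA)
    (hGEOT : ST_GEOT) (hGEOH : ST_GEOH) (hGEOC : ST_GEOC) : ST_DET := by
  filter_upwards [hLAY, det_stg hSTB hTOP hSCALE hHOST hASSIGN, hALPHA, hFLEX, hSUM, hSROW,
    eventually_ge_atTop 1000] with q h1 h2 h3 h4 h5 h6 hq
  intro m hm1 hm2 θ hθ
  obtain ⟨D⟩ := h1 m hm1 hm2
  obtain ⟨T⟩ := h2 m hm1 hm2 D θ hθ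
  obtain ⟨a1, a2, a3, _⟩ := h3 m hm1 hm2 D θ hθ T.S
  have ha := angOK_of T hθ hq a1 a2 a3
  have hm0 : 1 ≤ m := le_trans (Nat.one_le_pow _ _ (by omega)) hm1
  obtain ⟨x, hx⟩ := T.exists_flex hq hm0 hm2 hSIGN (T.hubs hθ (h4 m hm1 hm2 D))
  have hA := T.sumA hθ hq (h5 m hm1 hm2 D) (h6 m hm1 hm2 D θ hθ T.S)
  have hb : 0 < T.b := by
    have hq0 : (0 : ℝ) < q := by
      have : 0 < q := by omega
      exact_mod_cast this
    exact lt_of_lt_of_le (by positivity) T.hb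
  exact ⟨D.K, D.fK, T.b, T.p, T.s, T.n x, D.card_K, hb, T.s_pos hθ, hx.n_symm, hx.n_diag,
    hx.pd hPDL hA, hx.cover hθ hq ha hGEOA hGEOT hGEOH hGEOC⟩

end Pool.Agent.Helper72.RA
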