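import Pool.Agent.Helper72.RA.Defs2

set_option autoImplicit false

namespace Pool.Agent.Helper72.RA

open Real Finset MeasureTheory Filter

open scoped Classical ENNReal

lemma main_unif_prob : IsProbabilityMeasure unif := by
  constructor
  unfold unif
  rw [Measure.smul_apply, Measure.restrict_apply_univ, Real.volume_Ioo, sub_zero, smul_eq_mul]
  exact ENNReal.inv_mul_cancel (by simpa using Real.pi_pos) ENNReal.ofReal_ne_top

/-- choice of `q` for a given `m` -/
lemma main_q (Q : ℕ) : ∃ M : ℕ, ∀ m ≥ M, ∃ q ≥ Q, q ^ 1000 ≤ m ∧ m ≤ 2 * q ^ 1000 := by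
  have hev : ∀ᶠ q : ℕ in atTop, (q + 1) ^ 1000 ≤ 2 * q ^ 1000 := by
    have h1 : Tendsto (fun q : ℕ => (1 + 1 / (q : ℝ)) ^ 1000) atTop (nhds ((1 + 0) ^ 1000)) :=
      (tendsto_const_nhds.add tendsto_one_div_atTop_nhds_zero_nat).pow 1000
    have h2 : ∀ᶠ q : ℕ in atTop, (1 + 1 / (q : ℝ)) ^ 1000 < 2 :=
      h1.eventually (gt_mem_nhds (by norm_num))
    filter_upwards [h2, eventually_gt_atTop 0] with q h3 h4
    have h5 : (0 : ℝ) < q := by exact_mod_cast h4
    have h6 : ((q : ℝ) + 1) ^ 1000 = (1 + 1 / (q : ℝ)) ^ 1000 * (q : ℝ) ^ 1000 := by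
      rw [← mul_pow]; congr 1; field_simp
    have h7 : ((q : ℝ) + 1) ^ 1000 ≤ 2 * (q : ℝ) ^ 1000 := by
      rw [h6]
      exact mul_le_mul_of_nonneg_right h3.le (by positivity)
    exact_mod_cast h7
  obtain ⟨Q1, hQ1⟩ := eventually_atTop.1 hev
  refine ⟨(max Q Q1 + 1) ^ 1000, fun m hm => ?_⟩
  -- the largest `q` with `q ^ 1000 ≤ m`
  have hex : ∃ q, m < (q + 1) ^ 1000 := ⟨m, lt_of_lt_of_le (Nat.lt_succ_self m)
    (Nat.le_self_pow (by norm_num) _)⟩
  set q := Nat.find hex with hq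
  have hq1 : m < (q + 1) ^ 1000 := Nat.find_spec hex
  have hqQ : max Q Q1 < q := by
    by_contra hcon
    push Not at hcon
    have : (q + 1) ^ 1000 ≤ (max Q Q1 + 1) ^ 1000 :=
      Nat.pow_le_pow_left (by omega) _
    omega
  refine ⟨q, by have := le_max_left Q Q1; omega, ?_, ?_⟩
  · have h8 := Nat.find_min hex (m := q - 1) (by omega)
    push Not at h8
    have h9 : q - 1 + 1 = q := by omega
    rwa [h9] at h8
  · exact hq1.le.trans (hQ1 q (by have := le_max_right Q Q1; omega))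

theorem main_real (hR : ST_REAL) {q m : ℕ} (hq2 : 2 ≤ m) (d : ℕ) (hd : d + 1 = m)
    (θ : Fin (NN m) → ℝ) (hg : Good q m θ)
    (h : ∃ (K : Type) (_ : Fintype K) (b : ℝ) (p s : K → ℝ) (n : K → K → ℝ),
        Fintype.card K = m - 2 ∧ 0 < b ∧ (∀ k, 0 < s k) ∧ (∀ i k, n i k = n k i) ∧
        (∀ k, n k k = 1) ∧
        (∀ x : K → ℝ, x ≠ 0 → 0 < ∑ i, ∑ k, n i k * x i * x k) ∧
        ∀ t, ∃ a c e : Pt K, AngleIs (gram b p s n) a c e (θ t)) :
    Realisable d m θ := by
  obtain ⟨K, iK, b, p, s, n, hK, hb, hs, hn, hn1, hpd, hang⟩ := h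
  have hcard : Fintype.card K + 1 = d := by omega
  have key : ∀ d', Fintype.card K + 1 = d' →
      ∃ X : Pt K → EuclideanSpace ℝ (Fin d'), Function.Injective X ∧
      ∀ (a c e : Pt K) (θ : ℝ), 0 < θ → θ < π → AngleIs (gram b p s n) a c e θ →
        X a ≠ X c ∧ X e ≠ X c ∧ EuclideanGeometry.angle (X a) (X c) (X e) = θ := by
    rintro d' rfl
    exact hR K b p s n hb hs hn hn1 hpd
  obtain ⟨X, hX, hX2⟩ := key d hcard
  refine ⟨univ.image X, ?_, ?_⟩
  · rw [Finset.card_image_of_injective _ hX, Finset.card_univ]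
    simp only [Fintype.card_option]
    omega
  · intro t
    obtain ⟨a, c, e, h1⟩ := hang t
    have h2 : θ t < π := by
      have h3 := hg.top t
      have h4 : (0 : ℝ) ≤ qi q 2005 := by unfold qi; positivity
      linarith
    obtain ⟨h5, h6, h7⟩ := hX2 a c e (θ t) (hg.pos t) h2 h1
    exact ⟨X a, by simp, X c, by simp, X e, by simp, h5, h6, h7⟩

theorem st_MAIN (hR : ST_REAL) (hD : ST_DET) (hP : ST_PROB) : ST_MAIN := by
  have := main_unif_prob
  unfold ST_MAIN
  rw [tendsto_order]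
  refine ⟨fun a ha => ?_, fun a ha => ?_⟩
  · obtain ⟨c, hac, hc1⟩ := exists_between ha
    have hε : 0 < c - a := tsub_pos_of_lt hac
    obtain ⟨Q, hQ⟩ := eventually_atTop.1 (hD.and (hP (c - a) hε))
    obtain ⟨M, hM⟩ := main_q (max Q 2)
    filter_upwards [eventually_ge_atTop (M + 2)] with d hd
    obtain ⟨q, hq, hq1, hq2⟩ := hM (d + 1) (by omega)
    obtain ⟨hdet, hprob⟩ := hQ q ((le_max_left _ _).trans hq)
    have h1 := hprob (d + 1) hq1 hq2
    have h2 : (Measure.pi fun _ : Fin (NN (d + 1)) => unif) {θ | Good q (d + 1) θ} ≤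
        Prob d (d + 1) ((d + 1).choose 2 - 1) := by
      apply measure_mono
      intro θ hθ
      exact main_real hR (by omega) d rfl θ hθ (hdet (d + 1) hq1 hq2 θ hθ)
    have h3 : (1 : ℝ≥0∞) ≤ Prob d (d + 1) ((d + 1).choose 2 - 1) + (c - a) := by
      calc (1 : ℝ≥0∞) = (Measure.pi fun _ : Fin (NN (d + 1)) => unif) Set.univ :=
            measure_univ.symm
        _ ≤ (Measure.pi fun _ : Fin (NN (d + 1)) => unif)
            ({θ | Good q (d + 1) θ} ∪ {θ | ¬ Good q (d + 1) θ}) := by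
            apply measure_mono
            intro θ _
            exact em _
        _ ≤ _ := measure_union_le _ _
        _ ≤ _ := add_le_add h2 h1
    by_contra hcon
    push Not at hcon
    have h4 : (1 : ℝ≥0∞) ≤ a + (c - a) := h3.trans (add_le_add hcon le_rfl)
    rw [add_tsub_cancel_of_le hac.le] at h4
    exact absurd h4 (not_le.2 hc1)
  · refine Eventually.of_forall fun d => lt_of_le_of_lt ?_ ha
    exact prob_le_one

/-- the complement has small (outer) measure -/
theorem main_compl (hR : ST_REAL) (hD : ST_DET) (hP : ST_PROB) :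
    Tendsto (fun d : ℕ => (Measure.pi fun _ : Fin ((d + 1).choose 2 - 1) => unif)
      {θ | ¬ Realisable d (d + 1) θ}) atTop (nhds 0) := by
  rw [ENNReal.tendsto_nhds_zero]
  intro ε hε
  obtain ⟨Q, hQ⟩ := eventually_atTop.1 (hD.and (hP ε hε))
  obtain ⟨M, hM⟩ := main_q (max Q 2)
  filter_upwards [eventually_ge_atTop (M + 2)] with d hd
  obtain ⟨q, hq, hq1, hq2⟩ := hM (d + 1) (by omega)
  obtain ⟨hdet, hprob⟩ := hQ q ((le_max_left _ _).trans hq)
  refine le_trans (measure_mono ?_) (hprob (d + 1) hq1 hq2)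
  intro θ hθ hg
  exact hθ (main_real hR (by omega) d rfl θ hg (hdet (d + 1) hq1 hq2 θ hg))

end Pool.Agent.Helper72.RA
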