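import Pool.Agent.Helper72.RA.Defs2

set_option autoImplicit false

namespace Pool.Agent.Helper72.RA

open Real Finset MeasureTheory Filter

open scoped Classical

theorem st_STB (h1 : ST_BASE) (h2 : ST_OMATCH) : ST_STB := by
  filter_upwards [h1, h2] with q hb ho
  intro m hm1 hm2 D θ hg
  obtain ⟨ts, ta, tb, a1, a2, a3, a4⟩ := hb m hm1 hm2 D θ hg
  obtain ⟨tau, b1, b2, b3⟩ := ho m hm1 hm2 D θ hg ta a3
  exact ⟨{ ts := ts, ta := ta, tb := tb, tau := tau, ts_max := a1, ts_lo := a2
           ta_pool := fun k hk => (a4 k hk).1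
           tb_pool := fun k hk => (a4 k hk).2.1
           ta_lo := fun k hk => (a3 k hk).1
           ta_hi := fun k hk => (a3 k hk).2
           tb_lo := fun k hk => (a4 k hk).2.2.1
           tb_hi := fun k hk => (a4 k hk).2.2.2
           tau_pool := b1, tau_inj := b2, tau_n := b3 }⟩

end Pool.Agent.Helper72.RA
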