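import Pool.Agent.Helper1.RA.RCOUNT
import Pool.Agent.Helper1.RA.VSEP1
import Pool.Agent.Helper13.RA.GEO
import Pool.Agent.Helper16.RA.AVOID
import Pool.Agent.Helper16.RA.BASE
import Pool.Agent.Helper16.RA.CSOLVE
import Pool.Agent.Helper16.RA.FLEX
import Pool.Agent.Helper16.RA.HNUM
import Pool.Agent.Helper16.RA.HOST
import Pool.Agent.Helper16.RA.OCOUNT
import Pool.Agent.Helper18.RA.HDEG
import Pool.Agent.Helper18.RA.HSOL
import Pool.Agent.Helper18.RA.SIGN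
import Pool.Agent.Helper18.RA.XPROOT
import Pool.Agent.Helper49.RA.HCNT
import Pool.Agent.Helper49.RA.HLEV
import Pool.Agent.Helper53.RA.ALPHA
import Pool.Agent.Helper53.RA.ASSIGN
import Pool.Agent.Helper55.RA.HALL
import Pool.Agent.Helper55.RA.PDL
import Pool.Agent.Helper55.RA.REAL
import Pool.Agent.Helper58.RA.PICK
import Pool.Agent.Helper58.RA.SROW
import Pool.Agent.Helper63.RA.CELLREG
import Pool.Agent.Helper63.RA.CHERN
import Pool.Agent.Helper63.RA.PCELL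
import Pool.Agent.Helper63.RA.PROB
import Pool.Agent.Helper71.RA.LAY
import Pool.Agent.Helper71.RA.VCARD
import Pool.Agent.Helper71.RA.VDENS
import Pool.Agent.Helper71.RA.VRNG
import Pool.Agent.Helper71.RA.VSEP2
import Pool.Agent.Helper71.RA.VWIN
import Pool.Agent.Helper72.RA.DET
import Pool.Agent.Helper72.RA.MAIN
import Pool.Agent.Helper72.RA.STB
import Pool.Agent.Helper74.RA.HSUM
import Pool.Agent.Helper74.RA.OMATCH
import Pool.Agent.Helper77.RA.RANGE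
import Pool.Agent.Helper78.RA.SCALE
import Pool.Agent.Helper81.RA.ANG
import Pool.Agent.Helper81.RA.LEV
import Pool.Agent.Helper81.RA.NARROW
import Pool.Agent.Helper81.RA.PACK
import Pool.Agent.Helper89.RA.NARSZ
import Pool.Agent.Helper89.RA.WIDE
import Pool.Agent.Helper89.RA.WIDESZ
import Pool.Agent.Helper94.RA.EXT
import Pool.Agent.Helper94.RA.FAMILY
import Pool.Agent.Helper94.RA.OSUM
import Pool.Agent.Helper94.RA.PSUPP
import Pool.Agent.Helper94.RA.SIGMA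
import Pool.Agent.Helper94.RA.SUM
import Pool.Agent.Helper94.RA.UMEAS

set_option autoImplicit false

namespace Pool.Agent.Helper72.RA.All

open Pool.Agent.Helper72.RA

theorem a_LEV : ST_LEV := Pool.Agent.Helper72.RA.st_LEV 
theorem a_RCOUNT : ST_RCOUNT := Pool.Agent.Helper72.RA.st_RCOUNT a_LEV
theorem a_VCARD : ST_VCARD := Pool.Agent.Helper72.RA.st_VCARD a_LEV
theorem a_VSEP1 : ST_VSEP1 := Pool.Agent.Helper72.RA.st_VSEP1 a_LEV a_VCARD
theorem a_GEOA : ST_GEOA := Pool.Agent.Helper72.RA.st_GEOA 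
theorem a_GEOT : ST_GEOT := Pool.Agent.Helper72.RA.st_GEOT 
theorem a_GEOH : ST_GEOH := Pool.Agent.Helper72.RA.st_GEOH 
theorem a_GEOC : ST_GEOC := Pool.Agent.Helper72.RA.st_GEOC 
theorem a_AVOID : ST_AVOID := Pool.Agent.Helper72.RA.st_AVOID 
theorem a_ANG : ST_ANG := Pool.Agent.Helper72.RA.st_ANG a_LEV
theorem a_BASE : ST_BASE := Pool.Agent.Helper72.RA.st_BASE a_ANG
theorem a_TOP : ST_TOP := Pool.Agent.Helper72.RA.st_TOP a_LEV
theorem a_CPSOLVE : ST_CPSOLVE := Pool.Agent.Helper72.RA.st_CPSOLVE 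
theorem a_C0SOLVE : ST_C0SOLVE := Pool.Agent.Helper72.RA.st_C0SOLVE 
theorem a_FAMILY : ST_FAMILY := Pool.Agent.Helper72.RA.st_FAMILY 
theorem a_FLEX : ST_FLEX := Pool.Agent.Helper72.RA.st_FLEX a_FAMILY
theorem a_HNUM : ST_HNUM := Pool.Agent.Helper72.RA.st_HNUM a_CPSOLVE a_C0SOLVE
theorem a_HALL : ST_HALL := Pool.Agent.Helper72.RA.st_HALL 
theorem a_HLEV : ST_HLEV := Pool.Agent.Helper72.RA.st_HLEV a_LEV
theorem a_HSOL : ST_HSOL := Pool.Agent.Helper72.RA.st_HSOL a_LEV a_HNUM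
theorem a_HDEG : ST_HDEG := Pool.Agent.Helper72.RA.st_HDEG a_LEV
theorem a_HCNT : ST_HCNT := Pool.Agent.Helper72.RA.st_HCNT a_LEV
theorem a_HSUM : ST_HSUM := Pool.Agent.Helper72.RA.st_HSUM a_LEV
theorem a_HOST : ST_HOST := Pool.Agent.Helper72.RA.st_HOST a_HALL a_HLEV a_HSOL a_HDEG a_HCNT a_HSUM
theorem a_OCOUNT : ST_OCOUNT := Pool.Agent.Helper72.RA.st_OCOUNT a_LEV
theorem a_SIGN : ST_SIGN := Pool.Agent.Helper72.RA.st_SIGN 
theorem a_XPROOT : ST_XPROOT := Pool.Agent.Helper72.RA.st_XPROOT 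
theorem a_ALPHA : ST_ALPHA := Pool.Agent.Helper72.RA.st_ALPHA a_ANG
theorem a_EXT : ST_EXT := Pool.Agent.Helper72.RA.st_EXT 
theorem a_ASSIGN : ST_ASSIGN := Pool.Agent.Helper72.RA.st_ASSIGN a_EXT a_RCOUNT a_OCOUNT a_ALPHA a_LEV
theorem a_PDL : ST_PDL := Pool.Agent.Helper72.RA.st_PDL 
theorem a_REAL : ST_REAL := Pool.Agent.Helper72.RA.st_REAL 
theorem a_SIGMA : ST_SIGMA := Pool.Agent.Helper72.RA.st_SIGMA 
theorem a_PICK1 : ST_PICK1 := Pool.Agent.Helper72.RA.st_PICK1 a_SIGMA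
theorem a_WSUM : ST_WSUM := Pool.Agent.Helper72.RA.st_WSUM a_LEV
theorem a_PICK : ST_PICK := Pool.Agent.Helper72.RA.st_PICK a_HALL a_SIGMA a_WSUM
theorem a_SROW : ST_SROW := Pool.Agent.Helper72.RA.st_SROW a_ANG
theorem a_CELLREG : ST_CELLREG := Pool.Agent.Helper72.RA.CELLREG.st_CELLREG 
theorem a_CHERN : ST_CHERN := Pool.Agent.Helper72.RA.CHERN.st_CHERN 
theorem a_PCELL : ST_PCELL := Pool.Agent.Helper72.RA.PCELL.st_PCELL a_CHERN
theorem a_UMEAS : ST_UMEAS := Pool.Agent.Helper72.RA.st_UMEAS 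
theorem a_PSUPP : ST_PSUPP := Pool.Agent.Helper72.RA.st_PSUPP a_AVOID a_UMEAS
theorem a_PROB : ST_PROB := Pool.Agent.Helper72.RA.PROB.st_PROB a_PCELL a_CELLREG a_PSUPP
theorem a_VDENS : ST_VDENS := Pool.Agent.Helper72.RA.st_VDENS a_VCARD
theorem a_VSEP2 : ST_VSEP2 := Pool.Agent.Helper72.RA.st_VSEP2 a_LEV
theorem a_VWIN : ST_VWIN := Pool.Agent.Helper72.RA.st_VWIN a_LEV a_VSEP1
theorem a_VRNG : ST_VRNG := Pool.Agent.Helper72.RA.st_VRNG a_LEV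
theorem a_LAY : ST_LAY := Pool.Agent.Helper72.RA.st_LAY a_VCARD a_VDENS a_VSEP1 a_VSEP2 a_VWIN a_VRNG
theorem a_WIDE : ST_WIDE := Pool.Agent.Helper72.RA.st_WIDE a_ANG
theorem a_PACK : ST_PACK := Pool.Agent.Helper72.RA.st_PACK 
theorem a_NARROW : ST_NARROW := Pool.Agent.Helper72.RA.st_NARROW a_ANG a_PACK
theorem a_WIDESZ : ST_WIDESZ := Pool.Agent.Helper72.RA.st_WIDESZ a_ANG
theorem a_NARSZ : ST_NARSZ := Pool.Agent.Helper72.RA.st_NARSZ a_ANG a_LEV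
theorem a_OSUM : ST_OSUM := Pool.Agent.Helper72.RA.st_OSUM a_LEV
theorem a_OMATCH : ST_OMATCH := Pool.Agent.Helper72.RA.st_OMATCH a_HALL a_ANG a_WIDE a_NARROW a_WIDESZ a_NARSZ a_OSUM
theorem a_STB : ST_STB := Pool.Agent.Helper72.RA.st_STB a_BASE a_OMATCH
theorem a_RANGE : ST_RANGE := Pool.Agent.Helper72.RA.st_RANGE a_LEV
theorem a_SCALE : ST_SCALE := Pool.Agent.Helper72.RA.st_SCALE a_ALPHA a_RANGE a_PICK a_PICK1 a_XPROOT a_CPSOLVE a_LEV
theorem a_SUM : ST_SUM := Pool.Agent.Helper72.RA.st_SUM a_LEV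
theorem a_DET : ST_DET := Pool.Agent.Helper72.RA.st_DET a_LAY a_STB a_TOP a_SCALE a_HOST a_ASSIGN a_ALPHA a_FLEX a_SUM a_SROW a_SIGN a_PDL a_GEOA a_GEOT a_GEOH a_GEOC
theorem a_MAIN : ST_MAIN := Pool.Agent.Helper72.RA.st_MAIN a_REAL a_DET a_PROB

end Pool.Agent.Helper72.RA.All
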