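import Mathlib

set_option autoImplicit false

/-!
# MP_717de3_co: realising random angles with a simplex's worth of points

Definitions and module statements (`ST_*`).  Blueprint: `/team-store/ra_blueprint.md`.
-/

namespace Pool.Agent.Helper72.RA

open Real Finset MeasureTheory Filter

open scoped Classical

/-! ## The statement -/

/-- The uniform distribution on `(0, π)`. -/
noncomputable def unif : Measure ℝ :=
  (ENNReal.ofReal π)⁻¹ • (volume.restrict (Set.Ioo 0 π))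

/-- `θ` is realised by the finite set `X`. -/
def Realises {d : ℕ} (X : Finset (EuclideanSpace ℝ (Fin d))) (θ : ℝ) : Prop :=
  ∃ A ∈ X, ∃ B ∈ X, ∃ C ∈ X, A ≠ B ∧ C ≠ B ∧ EuclideanGeometry.angle A B C = θ

/-- The tuple `θ` is realisable with `m` points in `ℝ^d`. -/
def Realisable (d m : ℕ) {n : ℕ} (θ : Fin n → ℝ) : Prop :=
  ∃ X : Finset (EuclideanSpace ℝ (Fin d)), X.card = m ∧ ∀ i, Realises X (θ i)

/-- The probability that `n` independent uniform angles are realisable with `m` points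
in `ℝ^d`. -/
noncomputable def Prob (d m n : ℕ) : ENNReal :=
  (Measure.pi fun _ : Fin n => unif) {θ | Realisable d m θ}

/-- The final theorem. -/
def ST_MAIN : Prop :=
  Tendsto (fun d : ℕ => Prob d (d + 1) ((d + 1).choose 2 - 1)) atTop (nhds 1)

/-! ## Parameters.  `m` is about `q ^ 1000`. -/

/-- `q ^ (-k)`. -/
noncomputable def qi (q k : ℕ) : ℝ := ((q : ℝ) ^ k)⁻¹

/-- number of targets -/
def NN (m : ℕ) : ℕ := m.choose 2 - 1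

/-- the scales `P_u` -/
def Pl (q u : ℕ) : ℕ := 3 * q ^ 9 * 2 ^ u

/-- first high level -/
def u0 (q : ℕ) : ℕ := Nat.clog 2 (q ^ 11)

/-- last level -/
def UU (q : ℕ) : ℕ := Nat.clog 2 (q ^ 1341)

/-- number of clusters of flexible vertices -/
def nF (q : ℕ) : ℕ := 3 + u0 q

/-- hubs of one family are numbered `0, ..., LH q` -/
def LH (q : ℕ) : ℕ := q ^ 822

/-- positions of the clusters: `1, 1 + q^10, 1 + 2 q^10`, then `1 + P_u`, `u < u0` -/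
noncomputable def posC (q a : ℕ) : ℝ :=
  if a < 3 then 1 + (a : ℝ) * (q : ℝ) ^ 10 else 1 + (Pl q (a - 3) : ℝ)

/-- top zones: angles below `top q` or above `π - top q` -/
noncomputable def top (q : ℕ) : ℝ := (3 / 2) / (Pl q (UU q) : ℝ)

/-! ## The good event -/

/-- number of targets of pool `j` in `[x, y]` -/
noncomputable def cnt {m : ℕ} (j : ℕ) (θ : Fin (NN m) → ℝ) (x y : ℝ) : ℕ :=
  (univ.filter fun t : Fin (NN m) => (t : ℕ) % 4 = j ∧ x ≤ θ t ∧ θ t ≤ y).card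

structure Good (q m : ℕ) (θ : Fin (NN m) → ℝ) : Prop where
  pos : ∀ t, 0 < θ t
  top : ∀ t, θ t < π - qi q 2005
  reg : ∀ j < 4, ∀ x y : ℝ, 0 ≤ x → y ≤ π → qi q 1970 ≤ y - x →
    49 / 50 * ((m : ℝ) ^ 2 / 8 * ((y - x) / π)) ≤ (cnt j θ x y : ℝ) ∧
    (cnt j θ x y : ℝ) ≤ 51 / 50 * ((m : ℝ) ^ 2 / 8 * ((y - x) / π))
  supp : ∀ z : ℕ, ((z : ℝ) + 1) * qi q 1401 ≤ π / 2 →
    ∃ t t' : Fin (NN m), (t : ℕ) % 4 = 0 ∧ (t' : ℕ) % 4 = 1 ∧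
      (z : ℝ) * qi q 1401 ≤ θ t ∧ θ t < ((z : ℝ) + 1) * qi q 1401 ∧
      0 < π - θ t - θ t' ∧ π - θ t - θ t' < qi q 2530

/-! ## Points, Gram function, angles -/

/-- The points of the configuration: `none` is `O`, `some none` is `C`,
`some (some k)` is the vertex `k`. -/
abbrev Pt (K : Type) : Type := Option (Option K)

/-- inner products of the points (`O` is the origin) -/
noncomputable def gram {K : Type} (b : ℝ) (p s : K → ℝ) (n : K → K → ℝ) : Pt K → Pt K → ℝ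
  | none, _ => 0
  | some _, none => 0
  | some none, some none => b ^ 2
  | some none, some (some k) => b * p k
  | some (some k), some none => b * p k
  | some (some i), some (some k) => p i * p k + s i * s k * n i k

/-- `⟨a - b, c - b⟩` -/
def ip {P : Type} (g : P → P → ℝ) (a b c : P) : ℝ := g a c - g a b - g b c + g b b

/-- the angle at `b` between `a` and `c` is `θ` -/
def AngleIs {P : Type} (g : P → P → ℝ) (a b c : P) (θ : ℝ) : Prop :=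
  0 < ip g a b a ∧ 0 < ip g c b c ∧
    ip g a b c = cos θ * (√(ip g a b a) * √(ip g c b c))

/-! ## General modules -/

/-- fractional Hall theorem -/
def ST_HALL : Prop :=
  ∀ (ι τ : Type) [Fintype ι] [Fintype τ] (A : ι → Finset τ), (∀ i, (A i).Nonempty) →
    (∀ t, ∑ i ∈ univ.filter (fun i => t ∈ A i), ((A i).card : ℝ)⁻¹ ≤ 1) →
    ∃ f : ι → τ, Function.Injective f ∧ ∀ i, f i ∈ A i

/-- extension of a partial assignment to a bijection -/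
def ST_EXT : Prop :=
  ∀ (S T : Type) [Fintype S] [Fintype T], Fintype.card S = Fintype.card T →
    ∀ (Z R : Finset S) (M : Finset T) (f : S → T), Disjoint Z R → Set.InjOn f Z →
      (∀ z ∈ Z, f z ∉ M) → R.card ≤ M.card →
      ∃ F : S ≃ T, (∀ z ∈ Z, F z = f z) ∧ ∀ r ∈ R, F r ∈ M

/-- sign trick -/
def ST_SIGN : Prop :=
  ∀ (K : Type) [Fintype K] (δ : ℝ) (u w : K → K → ℝ), 0 ≤ δ →
    (∀ i k, u i k = u k i) → (∀ i k, w i k = w k i) →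
    (∀ i k, 0 ≤ u i k ∧ u i k ≤ δ) → (∀ i k, -δ ≤ w i k ∧ w i k ≤ 0) →
    ∃ x : K → K → ℝ, (∀ i k, x i k = x k i) ∧ (∀ i, x i i = 0) ∧
      (∀ i k, i ≠ k → x i k = u i k ∨ x i k = w i k) ∧
      ∑ i, ∑ k, (∑ j, x i j * x j k) ^ 2 ≤ 3 * (Fintype.card K : ℝ) ^ 3 * δ ^ 4

/-- positive definiteness -/
def ST_PDL : Prop :=
  ∀ (K : Type) [Fintype K] (n A B : K → K → ℝ),
    (∀ i k, n i k = (if i = k then 1 else 0) + A i k + B i k) →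
    (∀ i k, B i k = B k i) → ∑ i, ∑ k, (A i k) ^ 2 ≤ 1 / 16 →
    ∑ i, ∑ k, (∑ j, B i j * B j k) ^ 2 ≤ 1 / 256 →
    ∀ x : K → ℝ, x ≠ 0 → 0 < ∑ i, ∑ k, n i k * x i * x k

/-- realisation of the Gram data by points -/
def ST_REAL : Prop :=
  ∀ (K : Type) [Fintype K] (b : ℝ) (p s : K → ℝ) (n : K → K → ℝ), 0 < b → (∀ k, 0 < s k) →
    (∀ i k, n i k = n k i) → (∀ k, n k k = 1) →
    (∀ x : K → ℝ, x ≠ 0 → 0 < ∑ i, ∑ k, n i k * x i * x k) →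
    ∃ X : Pt K → EuclideanSpace ℝ (Fin (Fintype.card K + 1)), Function.Injective X ∧
      ∀ (a c e : Pt K) (θ : ℝ), 0 < θ → θ < π → AngleIs (gram b p s n) a c e θ →
        X a ≠ X c ∧ X e ≠ X c ∧ EuclideanGeometry.angle (X a) (X c) (X e) = θ

/-! ## Angles in terms of the parameters -/

/-- squared distance of the vertices `i` and `j` -/
noncomputable def dd {K : Type} (p s : K → ℝ) (n : K → K → ℝ) (i j : K) : ℝ :=
  (p i - p j) ^ 2 + s i ^ 2 + s j ^ 2 - 2 * s i * s j * n i j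

/-- the value of `n i k` which makes the angle at the hub `j` equal to `θ` -/
noncomputable def hubN {K : Type} (p s : K → ℝ) (n : K → K → ℝ) (i k j : K) (θ : ℝ) : ℝ :=
  (cos θ * (√(dd p s n i j) * √(dd p s n k j)) - (p i - p j) * (p k - p j) - s j ^ 2 +
    s i * s j * n i j + s j * s k * n j k) / (s i * s k)

/-- equation the angle at `k` between `i` and `C` is `π - φ`; here `P = p k - p i`,
`B = b - p k`, `x = s i`, `y = s k`, `ν = n i k` -/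
def CP (P B x y ν φ : ℝ) : Prop :=
  P * B - y ^ 2 + x * y * ν =
    cos φ * (√(P ^ 2 + x ^ 2 + y ^ 2 - 2 * x * y * ν) * √(B ^ 2 + y ^ 2))

/-- equation the angle at `i` between `k` and `C` is `φ`; same notation -/
def C0 (P B x y ν φ : ℝ) : Prop :=
  P * (P + B) + x ^ 2 - x * y * ν =
    cos φ * (√(P ^ 2 + x ^ 2 + y ^ 2 - 2 * x * y * ν) * √((P + B) ^ 2 + x ^ 2))

/-- angles at `O` -/
def ST_GEOA : Prop :=
  ∀ (K : Type) (b : ℝ) (p s ρ α : K → ℝ) (n : K → K → ℝ), 0 < b → (∀ k, 0 < ρ k) →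
    (∀ k, 0 < α k) → (∀ k, α k < π) → (∀ k, p k = ρ k * cos (α k)) →
    (∀ k, s k = ρ k * sin (α k)) → (∀ i k, n i k = n k i) → (∀ k, n k k = 1) →
    (∀ k, AngleIs (gram b p s n) (some (some k)) none (some none) (α k)) ∧
    (∀ i k θ, n i k = (cos θ - cos (α i) * cos (α k)) / (sin (α i) * sin (α k)) →
      AngleIs (gram b p s n) (some (some i)) none (some (some k)) θ)

/-- triangles with one vertex `O`: `x`, `y` are two other points of norms `rx`, `ry` with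
angle `β` at `O`; the angle at `x` between `O` and `y` is `σ` -/
def ST_GEOT : Prop :=
  ∀ (K : Type) (b : ℝ) (p s : K → ℝ) (n : K → K → ℝ) (x y : Pt K) (rx ry β σ : ℝ),
    (∀ i k, n i k = n k i) → 0 < rx → 0 < ry → 0 < β → β < π → 0 < σ → σ < π →
    gram b p s n x x = rx ^ 2 → gram b p s n y y = ry ^ 2 →
    gram b p s n x y = rx * ry * cos β →
    rx / ry = cos β + cos σ / sin σ * sin β →
    AngleIs (gram b p s n) none x y σ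

/-- hub slots -/
def ST_GEOH : Prop :=
  ∀ (K : Type) (b : ℝ) (p s : K → ℝ) (n : K → K → ℝ) (i k j : K) (θ : ℝ),
    (∀ i k, n i k = n k i) → (∀ k, n k k = 1) → 0 < s i → 0 < s k →
    0 < dd p s n i j → 0 < dd p s n k j → n i k = hubN p s n i k j θ →
    AngleIs (gram b p s n) (some (some i)) (some (some j)) (some (some k)) θ

/-- `C`-slots -/
def ST_GEOC : Prop :=
  ∀ (K : Type) (b : ℝ) (p s : K → ℝ) (n : K → K → ℝ) (i k : K) (φ : ℝ),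
    (∀ i k, n i k = n k i) → (∀ k, n k k = 1) → 0 < s i → 0 < s k → p i < p k → p k < b →
    |n i k| < 1 →
    (CP (p k - p i) (b - p k) (s i) (s k) (n i k) φ →
      AngleIs (gram b p s n) (some (some i)) (some (some k)) (some none) (π - φ)) ∧
    (C0 (p k - p i) (b - p k) (s i) (s k) (n i k) φ →
      AngleIs (gram b p s n) (some (some k)) (some (some i)) (some none) φ)

/-- solving the `C`-slot equations: near `π` -/
def ST_CPSOLVE : Prop :=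
  ∀ P B x y φ η : ℝ, 0 < P → 0 < B → 0 < x → 0 < y → 0 < φ → φ < π / 2 → 0 < η → η ≤ 1 / 2 →
    y ^ 2 + x * y < P * B → x * y ≤ B ^ 2 →
    |(P + B) ^ 2 * y ^ 2 + B ^ 2 * x ^ 2 + x ^ 2 * y ^ 2 - tan φ ^ 2 * (P * B - y ^ 2) ^ 2| ≤
      (P + B) * B * x * y * η →
    ∃ ν : ℝ, |ν| ≤ η ∧ CP P B x y ν φ

/-- solving the `C`-slot equations: near `0` -/
def ST_C0SOLVE : Prop :=
  ∀ P B x y φ η : ℝ, 0 < P → 0 < B → 0 < x → 0 < y → 0 < φ → φ < π / 2 → 0 < η → η ≤ 1 / 2 →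
    x * y ≤ P * (P + B) → 4 * (x * y) ≤ B ^ 2 →
    4 * tan φ ^ 2 * (P * (P + B) + x ^ 2) ≤ (P + B) * B →
    |(P + B) ^ 2 * y ^ 2 + B ^ 2 * x ^ 2 + x ^ 2 * y ^ 2 -
        tan φ ^ 2 * (P * (P + B) + x ^ 2) ^ 2| ≤
      (P + B) * B * x * y * η →
    ∃ ν : ℝ, |ν| ≤ η ∧ C0 P B x y ν φ

/-- numerical part of the hosting: if `x ^ 2 + y ^ 2` is close to `(P tan φ) ^ 2`, both
`C`-slot equations can be solved with a small `ν` -/
def ST_HNUM : Prop :=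
  ∀ P B x y φ w : ℝ, 100 ≤ P → 0 < w → w ≤ 1 / 1000 → P ≤ w * B / 200 →
    99 / 100 ≤ x → x ≤ 302 / 100 → 99 / 100 ≤ y → y ≤ 111 / 100 → 0 < φ → φ < π / 2 →
    |x ^ 2 + y ^ 2 - (tan φ * P) ^ 2| ≤ 6 * w →
    (∃ ν : ℝ, |ν| ≤ 8 * w ∧ CP P B x y ν φ) ∧ ∃ ν : ℝ, |ν| ≤ 8 * w ∧ C0 P B x y ν φ

/-- inverting `σ ↦ cos β + cot σ sin β` -/
def ST_SIGMA : Prop :=
  ∀ β r0 r1 : ℝ, 0 < β → β < π → 2 / 5 ≤ sin β → 0 ≤ r0 → r0 < r1 → r1 ≤ 3 →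
    ∃ x y : ℝ, 1 / 50 ≤ x ∧ y ≤ π - 1 / 50 ∧ (r1 - r0) / 110 ≤ y - x ∧
      ∀ σ : ℝ, x ≤ σ → σ ≤ y →
        r0 ≤ cos β + cos σ / sin σ * sin β ∧ cos β + cos σ / sin σ * sin β ≤ r1

/-- The hub family lemma.  The vertices `i`, `k` sit at `c + e`, `c - e`; the hubs at `c` with
radii `1/2 + l q^(-800)`. -/
def ST_FAMILY : Prop :=
  ∀ᶠ q : ℕ in atTop, ∀ (c e : ℝ) (pi si pk sk : ℝ) (ph sh ni nk : ℕ → ℝ) (θ : ℝ),
    |e| ≤ (q : ℝ) ^ 21 → |pi - (c + e)| ≤ qi q 860 → |pk - (c - e)| ≤ qi q 860 →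
    99 / 100 ≤ si → si ≤ 301 / 100 → 99 / 100 ≤ sk → sk ≤ 301 / 100 →
    (∀ l ≤ LH q, |ph l - c| ≤ qi q 860 ∧ |sh l - (1 / 2 + (l : ℝ) * qi q 800)| ≤ qi q 860 ∧
      |ni l| ≤ qi q 955 ∧ |nk l| ≤ qi q 955) →
    (15 / 100 ≤ θ ∧ θ ≤ 136 / 100 ∨
      (q : ℝ) ^ 10 / 2 ≤ |e| ∧ |e| ≤ (q : ℝ) ^ 10 ∧ qi q 9 ≤ θ ∧ θ ≤ π - qi q 9) →
    ∃ l ≤ LH q, ∃ l' ≤ LH q,
      let N : ℕ → ℝ := fun l =>
        (cos θ * (√((pi - ph l) ^ 2 + si ^ 2 + sh l ^ 2 - 2 * si * sh l * ni l) *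
            √((pk - ph l) ^ 2 + sk ^ 2 + sh l ^ 2 - 2 * sk * sh l * nk l)) -
          (pi - ph l) * (pk - ph l) - sh l ^ 2 + si * sh l * ni l + sh l * sk * nk l) /
          (si * sk)
      0 ≤ N l ∧ N l ≤ qi q 775 ∧ -qi q 775 ≤ N l' ∧ N l' ≤ 0

/-- The vertices of `XP`: scale of a vertex which hosts an angle `π - ε` at the special
vertex. -/
def ST_XPROOT : Prop :=
  ∀ᶠ q : ℕ in atTop, ∀ b ps ε1 ε α : ℝ, (q : ℝ) ^ 1967 ≤ b → (q : ℝ) ^ 999 ≤ ps →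
    ps ≤ (q : ℝ) ^ 1001 → qi q 2005 ≤ ε1 → ε1 ≤ ε → ε ≤ top q → 49 / 100 ≤ α →
    α ≤ 101 / 100 →
    ∃ ρ0 : ℝ, 0 < ρ0 ∧ ρ0 ≤ qi q 300 ∧ ∀ ρ : ℝ, ρ0 ≤ ρ → ρ ≤ ρ0 + qi q 1338 →
      |(ps + b) ^ 2 * (ρ * sin α) ^ 2 + (b - ρ * cos α) ^ 2 * (ps * tan ε1) ^ 2 +
          (ps * tan ε1) ^ 2 * (ρ * sin α) ^ 2 -
          tan ε ^ 2 * ((ρ * cos α + ps) * (b - ρ * cos α) - (ρ * sin α) ^ 2) ^ 2| ≤
        (ps + b) * (b - ρ * cos α) * (ps * tan ε1) * (ρ * sin α) * qi q 330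

/-! ## The layout of the vertices -/

/-- the seven kinds of vertices -/
inductive Ty
  | s | h0 | xp | x0 | h | g | v
  deriving DecidableEq

structure Lay (q m : ℕ) where
  K : Type
  fK : Fintype K
  card_K : @Fintype.card K fK = m - 2
  ty : K → Ty
  lev : K → ℕ
  pos : K → ℝ
  rad : K → ℝ
  win : K → ℕ
  cno : K → ℕ
  sv : K
  hv : K
  ty_s : ∀ k, ty k = Ty.s ↔ k = sv
  ty_h0 : ∀ k, ty k = Ty.h0 ↔ k = hv
  card_xp : (univ.filter fun k => ty k = Ty.xp).card = q ^ 655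
  card_x0 : (univ.filter fun k => ty k = Ty.x0).card = q ^ 655
  card_h : (univ.filter fun k => ty k = Ty.h).card ≤ q ^ 826
  lev_g : ∀ k, ty k = Ty.g → lev k ≤ UU q
  card_g1 : ∀ u ≤ UU q, (q : ℝ) * m / Pl q u ≤
    ((univ.filter fun k => ty k = Ty.g ∧ lev k = u).card : ℝ)
  card_g2 : ∀ u ≤ UU q,
    ((univ.filter fun k => ty k = Ty.g ∧ lev k = u).card : ℝ) ≤ (q : ℝ) * m / Pl q u + 1
  lev_v : ∀ k, ty k = Ty.v → lev k < 3
  card_v : ∀ a < 3, ((univ.filter fun k => ty k = Ty.v ∧ lev k = a).card : ℝ) ≤ m / 3 + 1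
  xr : ∀ k, ty k = Ty.h0 ∨ ty k = Ty.xp ∨ ty k = Ty.x0 →
    pos k = 1 ∧ 55 / 100 ≤ rad k ∧ rad k ≤ 155 / 100
  hr : ∀ k, ty k = Ty.h → 1 ≤ pos k ∧ pos k ≤ 7 * (q : ℝ) ^ 20 ∧ 1 / 2 ≤ rad k ∧
    rad k ≤ (q : ℝ) ^ 22 + 1
  gr : ∀ k, ty k = Ty.g → pos k = 1 + Pl q (lev k) ∧ 1 ≤ rad k ∧ rad k ≤ 11 / 10
  vr : ∀ k, ty k = Ty.v → pos k = 1 + (lev k : ℝ) * (q : ℝ) ^ 10 ∧ 1 ≤ rad k ∧ rad k ≤ 3
  hub : ∀ a < nF q, ∀ b < nF q, ∀ l ≤ LH q, ∃ k, ty k = Ty.h ∧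
    pos k = (posC q a + posC q b) / 2 ∧ rad k = 1 / 2 + (l : ℝ) * qi q 800
  dens : ∀ S w : ℝ, 101 / 100 ≤ S → S ≤ 295 / 100 → (q : ℝ) / m ≤ w → w ≤ 1 / 100 →
    w * m / 5 ≤ ((univ.filter fun k => ty k = Ty.v ∧ lev k = 0 ∧ |rad k - S| ≤ w).card : ℝ)
  win1 : ∀ k, k ≠ sv → |(win k : ℝ) * qi q 1401 - arctan (rad k / pos k)| ≤ qi q 1395
  win2 : ∀ k k', k ≠ k' → k ≠ sv → k' ≠ sv → win k + 2 ≤ win k' ∨ win k' + 2 ≤ win k
  cno_lt : ∀ k, cno k < q ^ 3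
  sep1 : ∀ k k', k ≠ k' → k ≠ sv → k' ≠ sv → cno k = cno k' →
    ((m : ℝ) * (q : ℝ) ^ 11)⁻¹ ≤ |arctan (rad k / pos k) - arctan (rad k' / pos k')|
  sep2 : ∀ k k', k ≠ k' → cno k = cno k' →
    (ty k = Ty.h0 ∨ ty k = Ty.xp ∨ ty k = Ty.x0 ∨ ty k = Ty.h) →
    (ty k' = Ty.h0 ∨ ty k' = Ty.xp ∨ ty k' = Ty.x0 ∨ ty k' = Ty.h) →
    qi q 930 ≤ |cos (arctan (rad k / pos k)) - cos (arctan (rad k' / pos k'))|

attribute [instance] Lay.fK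

/-- existence of the layout -/
def ST_LAY : Prop :=
  ∀ᶠ q : ℕ in atTop, ∀ m : ℕ, q ^ 1000 ≤ m → m ≤ 2 * q ^ 1000 → Nonempty (Lay q m)

section

variable {q m : ℕ} (D : Lay q m)

/-- flexible vertices -/
def isF (k : D.K) : Prop := D.ty k = Ty.v ∨ (D.ty k = Ty.g ∧ D.lev k < u0 q)

/-- high vertices -/
def high (k : D.K) : Prop := D.ty k = Ty.g ∧ u0 q ≤ D.lev k

/-- pairs which use a slot at `O` -/
def opR (i k : D.K) : Prop := i ≠ k ∧ i ≠ D.sv ∧ k ≠ D.sv ∧ ¬ (isF D i ∧ isF D k)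

/-- the same as a set of unordered pairs -/
noncomputable def OP : Finset (Sym2 D.K) :=
  univ.filter fun e => ∃ i k, e = s(i, k) ∧ opR D i k

/-- tolerances for high vertices -/
noncomputable def tolG (q u : ℕ) : ℝ := if Pl q u ≤ q ^ 900 then qi q 992 else qi q 560

noncomputable def tolK (k : D.K) : ℝ := if high D k then tolG q (D.lev k) else 0

/-- bound for `n i k` on the pairs `OP` -/
noncomputable def bd (i k : D.K) : ℝ :=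
  if high D i ∨ high D k then max (tolK D i) (tolK D k) else qi q 955

/-- pairs of flexible vertices for which only the angles in `[0.15, 1.36]` are used -/
def restr (i k : D.K) : Prop :=
  isF D i ∧ isF D k ∧ ¬ (D.ty i = Ty.v ∧ D.ty k = Ty.v ∧ D.lev i ≠ D.lev k)

end

/-- Frobenius bound for the pairs `OP` -/
def ST_SUM : Prop :=
  ∀ᶠ q : ℕ in atTop, ∀ m : ℕ, q ^ 1000 ≤ m → m ≤ 2 * q ^ 1000 → ∀ D : Lay q m,
    ∑ i, ∑ k, (if opR D i k then bd D i k ^ 2 else 0) ≤ 1 / 100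

/-- number of restricted pairs -/
def ST_RCOUNT : Prop :=
  ∀ᶠ q : ℕ in atTop, ∀ m : ℕ, q ^ 1000 ≤ m → m ≤ 2 * q ^ 1000 → ∀ D : Lay q m,
    ((univ.filter fun e : Sym2 D.K => ∃ i k, e = s(i, k) ∧ i ≠ k ∧ restr D i k).card : ℝ) ≤
      170 / 1000 * (m : ℝ) ^ 2

/-- number of pairs which are not flexible -/
def ST_OCOUNT : Prop :=
  ∀ᶠ q : ℕ in atTop, ∀ m : ℕ, q ^ 1000 ≤ m → m ≤ 2 * q ^ 1000 → ∀ D : Lay q m,
    ((OP D).card : ℝ) ≤ 1 / 1000 * (m : ℝ) ^ 2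

/-! ## The stages -/

/-- Output of the stages A (angles `α k`, partners) and B (slots at `O`). -/
structure StB {q m : ℕ} (D : Lay q m) (θ : Fin (NN m) → ℝ) where
  ts : Fin (NN m)
  ta : D.K → Fin (NN m)
  tb : D.K → Fin (NN m)
  tau : Sym2 D.K → Fin (NN m)
  ts_max : ∀ t, θ t ≤ θ ts
  ts_lo : π - qi q 1969 ≤ θ ts
  ta_pool : ∀ k, k ≠ D.sv → (ta k : ℕ) % 4 = 0
  tb_pool : ∀ k, k ≠ D.sv → (tb k : ℕ) % 4 = 1
  ta_lo : ∀ k, k ≠ D.sv → (D.win k : ℝ) * qi q 1401 ≤ θ (ta k)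
  ta_hi : ∀ k, k ≠ D.sv → θ (ta k) < ((D.win k : ℝ) + 1) * qi q 1401
  tb_lo : ∀ k, k ≠ D.sv → 0 < π - θ (ta k) - θ (tb k)
  tb_hi : ∀ k, k ≠ D.sv → π - θ (ta k) - θ (tb k) < qi q 2530
  tau_pool : ∀ e ∈ OP D, (tau e : ℕ) % 4 = 2
  tau_inj : Set.InjOn tau (OP D)
  tau_n : ∀ i k, opR D i k →
    |cos (θ (tau s(i, k))) - cos (θ (ta i)) * cos (θ (ta k))| ≤
      bd D i k * (sin (θ (ta i)) * sin (θ (ta k)))

/-- the targets `ta k` lie in the windows -/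
def WinOK {q m : ℕ} (D : Lay q m) (θ : Fin (NN m) → ℝ) (ta : D.K → Fin (NN m)) : Prop :=
  ∀ k, k ≠ D.sv → (D.win k : ℝ) * qi q 1401 ≤ θ (ta k) ∧
    θ (ta k) < ((D.win k : ℝ) + 1) * qi q 1401

/-- stage A -/
def ST_BASE : Prop :=
  ∀ᶠ q : ℕ in atTop, ∀ m : ℕ, q ^ 1000 ≤ m → m ≤ 2 * q ^ 1000 → ∀ D : Lay q m,
    ∀ θ : Fin (NN m) → ℝ, Good q m θ →
      ∃ (ts : Fin (NN m)) (ta tb : D.K → Fin (NN m)),
        (∀ t, θ t ≤ θ ts) ∧ π - qi q 1969 ≤ θ ts ∧ WinOK D θ ta ∧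
        (∀ k, k ≠ D.sv → (ta k : ℕ) % 4 = 0 ∧ (tb k : ℕ) % 4 = 1 ∧
          0 < π - θ (ta k) - θ (tb k) ∧ π - θ (ta k) - θ (tb k) < qi q 2530)

/-- few pairs `(h, k)`, `h` of kind `h0, xp, x0, h`, `k` not high, have
`cos α_h cos α_k` close to a given number -/
def ST_WIDE : Prop :=
  ∀ᶠ q : ℕ in atTop, ∀ m : ℕ, q ^ 1000 ≤ m → m ≤ 2 * q ^ 1000 → ∀ D : Lay q m,
    ∀ (θ : Fin (NN m) → ℝ) (ta : D.K → Fin (NN m)), WinOK D θ ta → ∀ c : ℝ,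
      (univ.filter fun e : D.K × D.K =>
        (D.ty e.1 = Ty.h0 ∨ D.ty e.1 = Ty.xp ∨ D.ty e.1 = Ty.x0 ∨ D.ty e.1 = Ty.h) ∧
        e.2 ≠ D.sv ∧ ¬ high D e.2 ∧
        |cos (θ (ta e.1)) * cos (θ (ta e.2)) - c| ≤ qi q 996).card ≤ m * q ^ 3

/-- For a high vertex `g`, few vertices `i` which are less flat have the nominal angle
`arccos (cos α_i cos α_g)` in a given short interval. -/
def ST_NARROW : Prop :=
  ∀ᶠ q : ℕ in atTop, ∀ m : ℕ, q ^ 1000 ≤ m → m ≤ 2 * q ^ 1000 → ∀ D : Lay q m,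
    ∀ (θ : Fin (NN m) → ℝ) (ta : D.K → Fin (NN m)), WinOK D θ ta →
      ∀ g, high D g → ∀ x l : ℝ, 0 ≤ l →
      ((univ.filter fun i : D.K => i ≠ g ∧ i ≠ D.sv ∧ (high D i → D.lev i ≤ D.lev g) ∧
        |arccos (cos (θ (ta i)) * cos (θ (ta g))) - x| ≤ l).card : ℝ) ≤
        (q : ℝ) ^ 3 * (1 + 24 * l * ((m : ℝ) * (q : ℝ) ^ 11))

/-- stage B -/
def ST_OMATCH : Prop :=
  ∀ᶠ q : ℕ in atTop, ∀ m : ℕ, q ^ 1000 ≤ m → m ≤ 2 * q ^ 1000 → ∀ D : Lay q m,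
    ∀ θ : Fin (NN m) → ℝ, Good q m θ → ∀ ta : D.K → Fin (NN m), WinOK D θ ta →
      ∃ tau : Sym2 D.K → Fin (NN m), (∀ e ∈ OP D, (tau e : ℕ) % 4 = 2) ∧
        Set.InjOn tau (OP D) ∧
        ∀ i k, opR D i k →
          |cos (θ (tau s(i, k))) - cos (θ (ta i)) * cos (θ (ta k))| ≤
            bd D i k * (sin (θ (ta i)) * sin (θ (ta k)))

/-- stages A and B are possible -/
def ST_STB : Prop :=
  ∀ᶠ q : ℕ in atTop, ∀ m : ℕ, q ^ 1000 ≤ m → m ≤ 2 * q ^ 1000 → ∀ D : Lay q m,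
    ∀ θ : Fin (NN m) → ℝ, Good q m θ → Nonempty (StB D θ)

section

variable {q m : ℕ} {D : Lay q m} {θ : Fin (NN m) → ℝ} (S : StB D θ)

/-- the angles at `O` with the axis -/
noncomputable def StB.al (k : D.K) : ℝ := if k = D.sv then θ S.ts else θ (S.ta k)

/-- the angle at `O` between `h_0` and `k` -/
noncomputable def StB.be (k : D.K) : ℝ :=
  if k = D.sv then θ (S.tb D.hv) else θ (S.tau s(D.hv, k))

end

/-- the targets used in the stages A and B -/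
noncomputable def StB.used {q m : ℕ} {D : Lay q m} {θ : Fin (NN m) → ℝ} (S : StB D θ) :
    Finset (Fin (NN m)) :=
  {S.ts} ∪ (univ.filter fun k => k ≠ D.sv).image S.ta ∪
    (univ.filter fun k => k ≠ D.sv).image S.tb ∪ (OP D).image S.tau

/-- The facts about the angles `al`, `be` which the other modules use. -/
def ST_ALPHA : Prop :=
  ∀ᶠ q : ℕ in atTop, ∀ m : ℕ, q ^ 1000 ≤ m → m ≤ 2 * q ^ 1000 → ∀ D : Lay q m,
    ∀ θ : Fin (NN m) → ℝ, Good q m θ → ∀ S : StB D θ,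
      (∀ k, k ≠ D.sv → |S.al k - arctan (D.rad k / D.pos k)| ≤ qi q 1394 ∧
        qi q 1352 ≤ S.al k ∧ S.al k < π / 2 - qi q 23) ∧
      (∀ k, k ≠ D.sv → k ≠ D.hv → 45 / 100 ≤ S.be k ∧ S.be k ≤ 158 / 100) ∧
      (21 / 10 ≤ S.be D.sv ∧ S.be D.sv ≤ 27 / 10) ∧
      (∀ k, D.ty k = Ty.h0 ∨ D.ty k = Ty.xp ∨ D.ty k = Ty.x0 →
        49 / 100 ≤ S.al k ∧ S.al k ≤ 101 / 100 ∧ 21 / 10 ≤ θ (S.tb k) ∧
          θ (S.tb k) ≤ 27 / 10) ∧
      (∀ i k, D.ty i = Ty.g → D.ty k = Ty.v → D.lev k = 0 → opR D i k →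
        7 / 10 ≤ θ (S.tau s(i, k)) ∧ θ (S.tau s(i, k)) ≤ 14 / 10) ∧
      Set.InjOn S.ta {k | k ≠ D.sv} ∧ Set.InjOn S.tb {k | k ≠ D.sv} ∧
      (∀ k, k ≠ D.sv → S.ta k ≠ S.ts) ∧ (∀ k, k ≠ D.sv → S.tb k ≠ S.ts) ∧
      (∀ e ∈ OP D, S.tau e ≠ S.ts)

/-- Stage C: the top extremes which are not used are distributed to the vertices of the
kinds `xp` (near `π`) and `x0` (near `0`). -/
def ST_TOP : Prop :=
  ∀ᶠ q : ℕ in atTop, ∀ m : ℕ, q ^ 1000 ≤ m → m ≤ 2 * q ^ 1000 → ∀ D : Lay q m,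
    ∀ θ : Fin (NN m) → ℝ, Good q m θ → ∀ S : StB D θ,
      ∃ ep e0 : D.K → Option (Fin (NN m)),
        (∀ k t, ep k = some t → D.ty k = Ty.xp ∧ π - top q < θ t ∧ t ∉ S.used) ∧
        (∀ k k' t, ep k = some t → ep k' = some t → k = k') ∧
        (∀ t, π - top q < θ t → t ∉ S.used → ∃ k, ep k = some t) ∧
        (∀ k t, e0 k = some t → D.ty k = Ty.x0 ∧ θ t < top q ∧ t ∉ S.used) ∧
        (∀ k k' t, e0 k = some t → e0 k' = some t → k = k') ∧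
        (∀ t, θ t < top q → t ∉ S.used → ∃ k, e0 k = some t)

/-- the rows of the special vertex: bound for the value of `n sv k` obtained from the partner
target `tb k` -/
def ST_SROW : Prop :=
  ∀ᶠ q : ℕ in atTop, ∀ m : ℕ, q ^ 1000 ≤ m → m ≤ 2 * q ^ 1000 → ∀ D : Lay q m,
    ∀ θ : Fin (NN m) → ℝ, Good q m θ → ∀ S : StB D θ,
      ∑ k ∈ univ.filter (fun k => k ≠ D.sv),
        ((cos (θ (S.tb k)) - cos (S.al D.sv) * cos (S.al k)) /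
          (sin (S.al D.sv) * sin (S.al k))) ^ 2 ≤ 1 / 1000

/-- Stage D: the scales.  `ep x = some t`: the vertex `x` of kind `xp` hosts the target `t`
(near `π`) in the slot `(x; s, C)`; `e0 x = some t`: the vertex `x` of kind `x0` hosts the
target `t` (near `0`) in its scale slot `(s; O, x)`. -/
def ST_SCALE : Prop :=
  ∀ᶠ q : ℕ in atTop, ∀ m : ℕ, q ^ 1000 ≤ m → m ≤ 2 * q ^ 1000 → ∀ D : Lay q m,
    ∀ θ : Fin (NN m) → ℝ, Good q m θ → ∀ S : StB D θ,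
    ∀ ep e0 : D.K → Option (Fin (NN m)),
      (∀ k t, ep k = some t → D.ty k = Ty.xp ∧ π - top q < θ t) →
      (∀ k t, e0 k = some t → D.ty k = Ty.x0 ∧ θ t < top q) →
      ∃ (b : ℝ) (ρ : D.K → ℝ) (tσ : D.K → Fin (NN m)) (ns : D.K → ℝ),
        (q : ℝ) ^ 1967 ≤ b ∧ (∀ k, 0 < ρ k) ∧ ρ D.hv = 1 ∧
        (∀ k, (tσ k : ℕ) % 4 = 3 ∧ 1 / 100 ≤ θ (tσ k) ∧ θ (tσ k) ≤ π - 1 / 100) ∧
        Function.Injective tσ ∧
        1 / b = cos (S.al D.hv) + cos (θ (tσ D.hv)) / sin (θ (tσ D.hv)) * sin (S.al D.hv) ∧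
        (∀ k, k ≠ D.hv → ep k = none → e0 k = none →
          1 / ρ k = cos (S.be k) + cos (θ (tσ k)) / sin (θ (tσ k)) * sin (S.be k)) ∧
        (∀ k t, ep k = some t →
          ρ k = cos (S.be k) + cos (θ (tσ k)) / sin (θ (tσ k)) * sin (S.be k) ∧
          |ns k| ≤ qi q 330 ∧
          CP (ρ k * cos (S.al k) - ρ D.sv * cos (S.al D.sv)) (b - ρ k * cos (S.al k))
            (ρ D.sv * sin (S.al D.sv)) (ρ k * sin (S.al k)) (ns k) (π - θ t)) ∧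
        (∀ k t, e0 k = some t →
          ρ D.sv / ρ k = cos (θ (S.tb k)) + cos (θ t) / sin (θ t) * sin (θ (S.tb k))) ∧
        (∀ k, D.ty k = Ty.xp ∨ D.ty k = Ty.x0 → ρ k ≤ (q : ℝ)) ∧
        (∀ k, isF D k ∨ D.ty k = Ty.h →
          |ρ k * cos (S.al k) - D.pos k| ≤ qi q 860 ∧
          |ρ k * sin (S.al k) - D.rad k| ≤ qi q 860) ∧
        (∀ k, D.ty k = Ty.v → D.lev k = 0 →
          |ρ k * cos (S.al k) - 1| ≤ qi q 999 ∧ |ρ k * sin (S.al k) - D.rad k| ≤ qi q 999) ∧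
        (∀ k, D.ty k = Ty.g →
          |ρ k * cos (S.al k) - D.pos k| ≤ D.pos k / 1000 ∧
          |ρ k * sin (S.al k) - D.rad k| ≤ 1 / 500)

/-- Stage E: hosting of the middle extremes on pairs (high or low vertex, vertex of the first
cluster). -/
def ST_HOST : Prop :=
  ∀ᶠ q : ℕ in atTop, ∀ m : ℕ, q ^ 1000 ≤ m → m ≤ 2 * q ^ 1000 → ∀ D : Lay q m,
    ∀ θ : Fin (NN m) → ℝ, Good q m θ → ∀ (b : ℝ) (p s : D.K → ℝ),
      (q : ℝ) ^ 1967 ≤ b →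
      (∀ k, D.ty k = Ty.v → D.lev k = 0 → |p k - 1| ≤ qi q 999 ∧ |s k - D.rad k| ≤ qi q 999) →
      (∀ k, D.ty k = Ty.g → |p k - D.pos k| ≤ D.pos k / 1000 ∧ |s k - D.rad k| ≤ 1 / 500) →
      ∀ Md : Finset (Fin (NN m)),
        (∀ t ∈ Md, (top q ≤ θ t ∧ θ t < qi q 9) ∨ (top q ≤ π - θ t ∧ π - θ t < qi q 9)) →
        ∃ (hg hx : Fin (NN m) → D.K) (ν : Fin (NN m) → ℝ),
          (∀ t ∈ Md, D.ty (hg t) = Ty.g ∧ D.ty (hx t) = Ty.v ∧ D.lev (hx t) = 0) ∧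
          (∀ t ∈ Md, ∀ t' ∈ Md, hg t = hg t' → hx t = hx t' → t = t') ∧
          (∀ t ∈ Md, |ν t| ≤ 1 / 100) ∧
          ∑ t ∈ Md, ν t ^ 2 ≤ 1 / 1000 ∧
          (∀ t ∈ Md, p (hx t) < p (hg t) ∧ p (hg t) < b ∧
            (θ t < 1 → C0 (p (hg t) - p (hx t)) (b - p (hg t)) (s (hx t)) (s (hg t)) (ν t)
              (θ t)) ∧
            (1 < θ t → CP (p (hg t) - p (hx t)) (b - p (hg t)) (s (hx t)) (s (hg t)) (ν t)
              (π - θ t)))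

/-- Stage F: the flexible pairs. -/
def ST_FLEX : Prop :=
  ∀ᶠ q : ℕ in atTop, ∀ m : ℕ, q ^ 1000 ≤ m → m ≤ 2 * q ^ 1000 → ∀ D : Lay q m,
    ∀ (p s : D.K → ℝ) (n : D.K → D.K → ℝ), (∀ i k, n i k = n k i) → (∀ k, n k k = 1) →
      (∀ k, isF D k ∨ D.ty k = Ty.h → |p k - D.pos k| ≤ qi q 860 ∧
        |s k - D.rad k| ≤ qi q 860) →
      (∀ i k, D.ty i = Ty.h → isF D k → |n i k| ≤ qi q 955) →
      ∀ (i k : D.K) (θ : ℝ), i ≠ k → isF D i → isF D k → 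
        (15 / 100 ≤ θ ∧ θ ≤ 136 / 100 ∨ ¬ restr D i k ∧ qi q 9 ≤ θ ∧ θ ≤ π - qi q 9) →
        ∃ j j' : D.K, D.ty j = Ty.h ∧ D.ty j' = Ty.h ∧
          0 < dd p s n i j ∧ 0 < dd p s n k j ∧ 0 < dd p s n i j' ∧ 0 < dd p s n k j' ∧
          0 ≤ hubN p s n i k j θ ∧ hubN p s n i k j θ ≤ qi q 775 ∧
          -qi q 775 ≤ hubN p s n i k j' θ ∧ hubN p s n i k j' θ ≤ 0

/-- the middle extremes which are not used -/
noncomputable def mids {q m : ℕ} {D : Lay q m} {θ : Fin (NN m) → ℝ} (S : StB D θ) :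
    Finset (Fin (NN m)) :=
  univ.filter fun t => t ∉ S.used ∧
    ((top q ≤ θ t ∧ θ t < qi q 9) ∨ (top q ≤ π - θ t ∧ π - θ t < qi q 9))

/-- The assignment of all targets to slots: `k` (angle with the axis), `k` (scale),
pairs. -/
def ST_ASSIGN : Prop :=
  ∀ᶠ q : ℕ in atTop, ∀ m : ℕ, q ^ 1000 ≤ m → m ≤ 2 * q ^ 1000 → ∀ D : Lay q m,
    ∀ θ : Fin (NN m) → ℝ, Good q m θ → ∀ S : StB D θ,
    ∀ ep e0 : D.K → Option (Fin (NN m)),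
      (∀ k t, ep k = some t → D.ty k = Ty.xp ∧ π - top q < θ t ∧ t ∉ S.used) →
      (∀ k k' t, ep k = some t → ep k' = some t → k = k') →
      (∀ t, π - top q < θ t → t ∉ S.used → ∃ k, ep k = some t) →
      (∀ k t, e0 k = some t → D.ty k = Ty.x0 ∧ θ t < top q ∧ t ∉ S.used) →
      (∀ k k' t, e0 k = some t → e0 k' = some t → k = k') →
      (∀ t, θ t < top q → t ∉ S.used → ∃ k, e0 k = some t) →
    ∀ tσ : D.K → Fin (NN m),
      (∀ k, (tσ k : ℕ) % 4 = 3 ∧ 1 / 100 ≤ θ (tσ k) ∧ θ (tσ k) ≤ π - 1 / 100) →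
      Function.Injective tσ →
    ∀ hg hx : Fin (NN m) → D.K,
      (∀ t ∈ mids S, D.ty (hg t) = Ty.g ∧ D.ty (hx t) = Ty.v ∧ D.lev (hx t) = 0) →
      (∀ t ∈ mids S, ∀ t' ∈ mids S, hg t = hg t' → hx t = hx t' → t = t') →
      ∃ G : Sym2 D.K → Fin (NN m),
        (∀ t, (∃ k, t = if k = D.sv then S.ts else S.ta k) ∨ (∃ k, t = (e0 k).getD (tσ k)) ∨
          ∃ i k, i ≠ k ∧ t = G s(i, k)) ∧
        (∀ k, k ≠ D.sv → G s(D.sv, k) = (ep k).getD (S.tb k)) ∧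
        (∀ t ∈ mids S, G s(hg t, hx t) = t) ∧
        (∀ i k, opR D i k → (∀ t ∈ mids S, s(i, k) ≠ s(hg t, hx t)) →
          G s(i, k) = S.tau s(i, k)) ∧
        (∀ i k, i ≠ k → isF D i → isF D k → (∀ t ∈ mids S, s(i, k) ≠ s(hg t, hx t)) →
          (15 / 100 ≤ θ (G s(i, k)) ∧ θ (G s(i, k)) ≤ 136 / 100) ∨
            ¬ restr D i k ∧ qi q 9 ≤ θ (G s(i, k)) ∧ θ (G s(i, k)) ≤ π - qi q 9)

/-! ## The deterministic theorem and the probability -/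

/-- the deterministic theorem -/
def ST_DET : Prop :=
  ∀ᶠ q : ℕ in atTop, ∀ m : ℕ, q ^ 1000 ≤ m → m ≤ 2 * q ^ 1000 →
    ∀ θ : Fin (NN m) → ℝ, Good q m θ →
      ∃ (K : Type) (_ : Fintype K) (b : ℝ) (p s : K → ℝ) (n : K → K → ℝ),
        Fintype.card K = m - 2 ∧ 0 < b ∧ (∀ k, 0 < s k) ∧ (∀ i k, n i k = n k i) ∧
        (∀ k, n k k = 1) ∧
        (∀ x : K → ℝ, x ≠ 0 → 0 < ∑ i, ∑ k, n i k * x i * x k) ∧
        ∀ t, ∃ a c e : Pt K, AngleIs (gram b p s n) a c e (θ t)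

/-- probability of the good event -/
def ST_PROB : Prop :=
  ∀ ε : ENNReal, 0 < ε → ∀ᶠ q : ℕ in atTop, ∀ m : ℕ, q ^ 1000 ≤ m → m ≤ 2 * q ^ 1000 →
    (Measure.pi fun _ : Fin (NN m) => unif) {θ | ¬ Good q m θ} ≤ ε

/-- Chernoff bounds for counts of independent uniform points -/
def ST_CHERN : Prop :=
  ∀ (N : ℕ) (I : Finset (Fin N)) (A : Set ℝ) (lam : ℝ), MeasurableSet A → 0 < lam → lam ≤ 1 →
    (Measure.pi fun _ : Fin N => unif)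
        {θ | lam * (I.card * (unif A).toReal) <
          |((I.filter fun t => θ t ∈ A).card : ℝ) - I.card * (unif A).toReal|} ≤
      ENNReal.ofReal (2 * exp (-(lam ^ 2 * (I.card * (unif A).toReal) / 3)))

/-- regular cells: the interval `(0, π)` is divided into `q ^ 1980` cells -/
def CellReg (q m : ℕ) (θ : Fin (NN m) → ℝ) : Prop :=
  ∀ j < 4, ∀ i < q ^ 1980,
    |(((univ.filter fun t : Fin (NN m) => (t : ℕ) % 4 = j ∧
        (i : ℝ) * (π / (q : ℝ) ^ 1980) < θ t ∧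
        θ t ≤ ((i : ℝ) + 1) * (π / (q : ℝ) ^ 1980)).card : ℕ) : ℝ) -
      ((univ.filter fun t : Fin (NN m) => (t : ℕ) % 4 = j).card : ℝ) / (q : ℝ) ^ 1980| ≤
      1 / 100 * (((univ.filter fun t : Fin (NN m) => (t : ℕ) % 4 = j).card : ℝ) /
        (q : ℝ) ^ 1980)

/-- probability of regular cells -/
def ST_PCELL : Prop :=
  ∀ ε : ENNReal, 0 < ε → ∀ᶠ q : ℕ in atTop, ∀ m : ℕ, q ^ 1000 ≤ m → m ≤ 2 * q ^ 1000 →
    (Measure.pi fun _ : Fin (NN m) => unif) {θ | ¬ CellReg q m θ} ≤ ε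

/-- regular cells imply the regularity in `Good` -/
def ST_CELLREG : Prop :=
  ∀ᶠ q : ℕ in atTop, ∀ m : ℕ, q ^ 1000 ≤ m → m ≤ 2 * q ^ 1000 → ∀ θ : Fin (NN m) → ℝ,
    (∀ t, 0 < θ t ∧ θ t < π) → CellReg q m θ →
    ∀ j < 4, ∀ x y : ℝ, 0 ≤ x → y ≤ π → qi q 1970 ≤ y - x →
      49 / 50 * ((m : ℝ) ^ 2 / 8 * ((y - x) / π)) ≤ (cnt j θ x y : ℝ) ∧
      (cnt j θ x y : ℝ) ≤ 51 / 50 * ((m : ℝ) ^ 2 / 8 * ((y - x) / π))

/-- probability that partners are missing although the cells are regular -/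
def ST_PSUPP : Prop :=
  ∀ ε : ENNReal, 0 < ε → ∀ᶠ q : ℕ in atTop, ∀ m : ℕ, q ^ 1000 ≤ m → m ≤ 2 * q ^ 1000 →
    (Measure.pi fun _ : Fin (NN m) => unif)
      {θ | CellReg q m θ ∧ ¬ ∀ z : ℕ, ((z : ℝ) + 1) * qi q 1401 ≤ π / 2 →
        ∃ t t' : Fin (NN m), (t : ℕ) % 4 = 0 ∧ (t' : ℕ) % 4 = 1 ∧
          (z : ℝ) * qi q 1401 ≤ θ t ∧ θ t < ((z : ℝ) + 1) * qi q 1401 ∧
          0 < π - θ t - θ t' ∧ π - θ t - θ t' < qi q 2530} ≤ ε

end Pool.Agent.Helper72.RA
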