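import Pool.Agent.Helper72.RA.Defs

set_option autoImplicit false

/-!
# MP_717de3_co: module statements, second part
-/

namespace Pool.Agent.Helper72.RA

open Real Finset MeasureTheory Filter

open scoped Classical

/-- packing -/
def ST_PACK : Prop :=
  ∀ (ι : Type) (s : Finset ι) (f : ι → ℝ) (x l δ : ℝ), 0 < δ → 0 ≤ l →
    (∀ i ∈ s, |f i - x| ≤ l) → (∀ i ∈ s, ∀ j ∈ s, i ≠ j → δ ≤ |f i - f j|) →
    (s.card : ℝ) ≤ 1 + 2 * l / δ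

/-- basic facts about the levels -/
def ST_LEV : Prop :=
  ∀ᶠ q : ℕ in atTop, 10 ^ 9 ≤ q ∧
    (∀ u < u0 q, (Pl q u : ℝ) ≤ 3 * (q : ℝ) ^ 20) ∧ 3 * (q : ℝ) ^ 20 ≤ (Pl q (u0 q) : ℝ) ∧
    u0 q ≤ UU q ∧ UU q + 8 ≤ q ∧ nF q ≤ q ∧
    (∀ u v, u ≤ v → Pl q u ≤ Pl q v) ∧ (∀ u, 3 * (q : ℝ) ^ 9 ≤ (Pl q u : ℝ)) ∧
    3 * (q : ℝ) ^ 1350 ≤ (Pl q (UU q) : ℝ) ∧ (Pl q (UU q) : ℝ) ≤ 6 * (q : ℝ) ^ 1350 ∧
    qi q 1350 / 4 ≤ top q ∧ top q ≤ qi q 1350 / 2 ∧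
    ∑ u ∈ range (UU q + 1), ((Pl q u : ℝ))⁻¹ ≤ 2 / 3 * qi q 9 ∧
    ∑ u ∈ (range (UU q + 1)).filter (fun u => u0 q ≤ u), ((Pl q u : ℝ))⁻¹ ≤ 2 / 3 * qi q 20

/-! ## The concrete layout -/

/-- number of vertices of level `u` -/
def Ng (q m u : ℕ) : ℕ := q * m / Pl q u + 1

/-- number of vertices of kind `xp` (and of kind `x0`) -/
def nX (q : ℕ) : ℕ := q ^ 655

/-- number of vertices which are not of kind `v` -/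
def Wn (q m : ℕ) : ℕ :=
  2 + 2 * nX q + nF q * nF q * (LH q + 1) + ∑ u : Fin (UU q + 1), Ng q m u

/-- sizes of the three clusters -/
def Mv (q m a : ℕ) : ℕ := (m - 2 - Wn q m + a) / 3

/-- the vertices (with general sizes) -/
inductive Vy (nx nf lh uu : ℕ) (G M : ℕ → ℕ) : Type
  | s : Vy nx nf lh uu G M
  | h0 : Vy nx nf lh uu G M
  | xp (i : Fin nx) : Vy nx nf lh uu G M
  | x0 (i : Fin nx) : Vy nx nf lh uu G M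
  | h (a b : Fin nf) (l : Fin (lh + 1)) : Vy nx nf lh uu G M
  | g (u : Fin (uu + 1)) (i : Fin (G u)) : Vy nx nf lh uu G M
  | v (a : Fin 3) (i : Fin (M a)) : Vy nx nf lh uu G M

/-- the vertices as a sum type -/
def vyEquiv (nx nf lh uu : ℕ) (G M : ℕ → ℕ) : Vy nx nf lh uu G M ≃
    Unit ⊕ Unit ⊕ Fin nx ⊕ Fin nx ⊕ (Fin nf × Fin nf × Fin (lh + 1)) ⊕
      (Σ u : Fin (uu + 1), Fin (G u)) ⊕ (Σ a : Fin 3, Fin (M a)) where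
  toFun k := match k with
    | .s => .inl ()
    | .h0 => .inr (.inl ())
    | .xp i => .inr (.inr (.inl i))
    | .x0 i => .inr (.inr (.inr (.inl i)))
    | .h a b l => .inr (.inr (.inr (.inr (.inl (a, b, l)))))
    | .g u i => .inr (.inr (.inr (.inr (.inr (.inl ⟨u, i⟩)))))
    | .v a i => .inr (.inr (.inr (.inr (.inr (.inr ⟨a, i⟩)))))
  invFun k := match k with
    | .inl _ => .s
    | .inr (.inl _) => .h0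
    | .inr (.inr (.inl i)) => .xp i
    | .inr (.inr (.inr (.inl i))) => .x0 i
    | .inr (.inr (.inr (.inr (.inl (a, b, l))))) => .h a b l
    | .inr (.inr (.inr (.inr (.inr (.inl ⟨u, i⟩))))) => .g u i
    | .inr (.inr (.inr (.inr (.inr (.inr ⟨a, i⟩))))) => .v a i
  left_inv k := by cases k <;> rfl
  right_inv k := by
    rcases k with _ | _ | _ | _ | ⟨_, _, _⟩ | ⟨_, _⟩ | ⟨_, _⟩ <;> rfl

instance (nx nf lh uu : ℕ) (G M : ℕ → ℕ) : Fintype (Vy nx nf lh uu G M) :=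
  Fintype.ofEquiv _ (vyEquiv nx nf lh uu G M).symm

/-- the vertices -/
abbrev Vx (q m : ℕ) : Type := Vy (nX q) (nF q) (LH q) (UU q) (Ng q m) (Mv q m)

/-- the kind -/
def vty {q m : ℕ} : Vx q m → Ty
  | .s => Ty.s
  | .h0 => Ty.h0
  | .xp _ => Ty.xp
  | .x0 _ => Ty.x0
  | .h _ _ _ => Ty.h
  | .g _ _ => Ty.g
  | .v _ _ => Ty.v

/-- the level -/
def vlev {q m : ℕ} : Vx q m → ℕ
  | .g u _ => u
  | .v a _ => a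
  | _ => 0

/-- the position on the axis -/
noncomputable def vpos {q m : ℕ} : Vx q m → ℝ
  | .h a b _ => (posC q a + posC q b) / 2
  | .g u _ => 1 + (Pl q u : ℝ)
  | .v a _ => 1 + ((a : ℕ) : ℝ) * (q : ℝ) ^ 10
  | _ => 1

/-- the distance from the axis -/
noncomputable def vrad {q m : ℕ} : Vx q m → ℝ
  | .xp i => 55 / 100 + ((i : ℕ) : ℝ) / (q : ℝ) ^ 655
  | .x0 i => 55 / 100 + ((i : ℕ) : ℝ) / (q : ℝ) ^ 655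
  | .h _ _ l => 1 / 2 + ((l : ℕ) : ℝ) * qi q 800
  | .g u i => 1 + ((i : ℕ) : ℝ) / (10 * (Ng q m u : ℝ))
  | .v a i => 1 + 2 * ((i : ℕ) : ℝ) / (Mv q m a : ℝ)
  | _ => 1

/-- the class -/
def vcls {q m : ℕ} : Vx q m → ℕ
  | .s => 0
  | .h0 => 1
  | .xp _ => 2
  | .x0 _ => 3
  | .h a b _ => 4 + (a * nF q + b)
  | .g u _ => 4 + nF q * nF q + u
  | .v a _ => 5 + nF q * nF q + UU q + a

/-- the window -/
noncomputable def vwin {q m : ℕ} (k : Vx q m) : ℕ :=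
  2 * q ^ 3 * ⌊arctan (vrad k / vpos k) * (q : ℝ) ^ 1401 / (2 * (q : ℝ) ^ 3)⌋₊ + 2 * vcls k

/-- cardinalities -/
def ST_VCARD : Prop :=
  ∀ᶠ q : ℕ in atTop, ∀ m : ℕ, q ^ 1000 ≤ m → m ≤ 2 * q ^ 1000 →
    Fintype.card (Vx q m) = m - 2 ∧
    (univ.filter fun k : Vx q m => vty k = Ty.xp).card = q ^ 655 ∧
    (univ.filter fun k : Vx q m => vty k = Ty.x0).card = q ^ 655 ∧
    (univ.filter fun k : Vx q m => vty k = Ty.h).card ≤ q ^ 826 ∧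
    (∀ u ≤ UU q, (q : ℝ) * m / Pl q u ≤
      ((univ.filter fun k : Vx q m => vty k = Ty.g ∧ vlev k = u).card : ℝ)) ∧
    (∀ u ≤ UU q, ((univ.filter fun k : Vx q m => vty k = Ty.g ∧ vlev k = u).card : ℝ) ≤
      (q : ℝ) * m / Pl q u + 1) ∧
    (∀ a < 3, ((univ.filter fun k : Vx q m => vty k = Ty.v ∧ vlev k = a).card : ℝ) ≤
      m / 3 + 1) ∧
    ∀ a < 3, (33 / 100 : ℝ) * m ≤ (Mv q m a : ℝ) ∧ (Mv q m a : ℝ) ≤ 34 / 100 * m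

/-- density of the first cluster -/
def ST_VDENS : Prop :=
  ∀ᶠ q : ℕ in atTop, ∀ m : ℕ, q ^ 1000 ≤ m → m ≤ 2 * q ^ 1000 →
    ∀ S w : ℝ, 101 / 100 ≤ S → S ≤ 295 / 100 → (q : ℝ) / m ≤ w → w ≤ 1 / 100 →
      w * m / 5 ≤
        ((univ.filter fun k : Vx q m => vty k = Ty.v ∧ vlev k = 0 ∧ |vrad k - S| ≤ w).card : ℝ)

/-- separation of the angles in one class -/
def ST_VSEP1 : Prop :=
  ∀ᶠ q : ℕ in atTop, ∀ m : ℕ, q ^ 1000 ≤ m → m ≤ 2 * q ^ 1000 →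
    ∀ k k' : Vx q m, k ≠ k' → k ≠ .s → k' ≠ .s → vcls k = vcls k' →
      ((m : ℝ) * (q : ℝ) ^ 11)⁻¹ ≤ |arctan (vrad k / vpos k) - arctan (vrad k' / vpos k')|

/-- separation of the cosines in one class -/
def ST_VSEP2 : Prop :=
  ∀ᶠ q : ℕ in atTop, ∀ m : ℕ, q ^ 1000 ≤ m → m ≤ 2 * q ^ 1000 →
    ∀ k k' : Vx q m, k ≠ k' → vcls k = vcls k' →
      (vty k = Ty.h0 ∨ vty k = Ty.xp ∨ vty k = Ty.x0 ∨ vty k = Ty.h) →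
      (vty k' = Ty.h0 ∨ vty k' = Ty.xp ∨ vty k' = Ty.x0 ∨ vty k' = Ty.h) →
      qi q 930 ≤ |cos (arctan (vrad k / vpos k)) - cos (arctan (vrad k' / vpos k'))|

/-- windows -/
def ST_VWIN : Prop :=
  ∀ᶠ q : ℕ in atTop, ∀ m : ℕ, q ^ 1000 ≤ m → m ≤ 2 * q ^ 1000 →
    (∀ k : Vx q m, vcls k < q ^ 3) ∧
    (∀ k : Vx q m, |(vwin k : ℝ) * qi q 1401 - arctan (vrad k / vpos k)| ≤ qi q 1395) ∧
    (∀ k k' : Vx q m, k ≠ k' → k ≠ .s → k' ≠ .s →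
      vwin k + 2 ≤ vwin k' ∨ vwin k' + 2 ≤ vwin k)

/-- ranges of position and radius -/
def ST_VRNG : Prop :=
  ∀ᶠ q : ℕ in atTop, ∀ m : ℕ, q ^ 1000 ≤ m → m ≤ 2 * q ^ 1000 →
    (∀ k : Vx q m, vty k = Ty.h0 ∨ vty k = Ty.xp ∨ vty k = Ty.x0 →
      vpos k = 1 ∧ 55 / 100 ≤ vrad k ∧ vrad k ≤ 155 / 100) ∧
    (∀ k : Vx q m, vty k = Ty.h → 1 ≤ vpos k ∧ vpos k ≤ 7 * (q : ℝ) ^ 20 ∧ 1 / 2 ≤ vrad k ∧
      vrad k ≤ (q : ℝ) ^ 22 + 1) ∧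
    (∀ k : Vx q m, vty k = Ty.g →
      vpos k = 1 + Pl q (vlev k) ∧ 1 ≤ vrad k ∧ vrad k ≤ 11 / 10 ∧ vlev k ≤ UU q) ∧
    (∀ k : Vx q m, vty k = Ty.v → vpos k = 1 + (vlev k : ℝ) * (q : ℝ) ^ 10 ∧
      1 ≤ vrad k ∧ vrad k ≤ 3 ∧ vlev k < 3) ∧
    (∀ a < nF q, ∀ b < nF q, ∀ l ≤ LH q, ∃ k : Vx q m, vty k = Ty.h ∧
      vpos k = (posC q a + posC q b) / 2 ∧ vrad k = 1 / 2 + (l : ℝ) * qi q 800)

/-! ## Angles of the vertices -/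

/-- basic facts about the angles `θ (ta k)` -/
def ST_ANG : Prop :=
  ∀ᶠ q : ℕ in atTop, ∀ m : ℕ, q ^ 1000 ≤ m → m ≤ 2 * q ^ 1000 → ∀ D : Lay q m,
    (∀ k, k ≠ D.sv → ((D.win k : ℝ) + 1) * qi q 1401 ≤ π / 2) ∧
    ∀ (θ : Fin (NN m) → ℝ) (ta : D.K → Fin (NN m)), WinOK D θ ta →
      (∀ k, k ≠ D.sv → |θ (ta k) - arctan (D.rad k / D.pos k)| ≤ qi q 1394 ∧
        qi q 1352 ≤ θ (ta k) ∧ θ (ta k) < π / 2 - qi q 23 ∧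
        |cos (θ (ta k)) - cos (arctan (D.rad k / D.pos k))| ≤ qi q 1394) ∧
      (∀ k, k ≠ D.sv → ¬ high D k →
        qi q 20 / 15 ≤ sin (θ (ta k)) ∧ qi q 23 ≤ cos (θ (ta k))) ∧
      (∀ k, high D k → 98 / 100 / (Pl q (D.lev k) : ℝ) ≤ sin (θ (ta k)) ∧
        sin (θ (ta k)) ≤ 112 / 100 / (Pl q (D.lev k) : ℝ) ∧ 99 / 100 ≤ cos (θ (ta k))) ∧
      (∀ g i, high D g → i ≠ D.sv → (high D i → D.lev i ≤ D.lev g) →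
        sin (θ (ta g)) ≤ 6 * sin (θ (ta i))) ∧
      (∀ k, D.ty k = Ty.h0 ∨ D.ty k = Ty.xp ∨ D.ty k = Ty.x0 →
        50 / 100 ≤ θ (ta k) ∧ θ (ta k) ≤ 100 / 100) ∧
      (∀ k, D.ty k = Ty.v → D.lev k = 0 → 78 / 100 ≤ θ (ta k) ∧ θ (ta k) ≤ 126 / 100)

/-! ## Stage B -/

/-- allowed targets of a wide pair -/
noncomputable def wideT {m : ℕ} (q : ℕ) (θ : Fin (NN m) → ℝ) (ai ak : ℝ) :
    Finset (Fin (NN m)) :=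
  univ.filter fun t => (t : ℕ) % 4 = 2 ∧ |cos (θ t) - cos ai * cos ak| ≤ qi q 996

/-- allowed targets of a narrow pair (`g` high of level `u`) -/
noncomputable def narT {m : ℕ} (q : ℕ) (θ : Fin (NN m) → ℝ) (u : ℕ) (ai ag : ℝ) :
    Finset (Fin (NN m)) :=
  univ.filter fun t => (t : ℕ) % 4 = 2 ∧
    |θ t - arccos (cos ai * cos ag)| ≤ tolG q u * sin ag / 20

def ST_WIDESZ : Prop :=
  ∀ᶠ q : ℕ in atTop, ∀ m : ℕ, q ^ 1000 ≤ m → m ≤ 2 * q ^ 1000 → ∀ D : Lay q m,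
    ∀ θ : Fin (NN m) → ℝ, Good q m θ → ∀ ta : D.K → Fin (NN m), WinOK D θ ta →
      ∀ i k, i ≠ D.sv → k ≠ D.sv → ¬ high D i → ¬ high D k →
        7 / 100 * (m : ℝ) ^ 2 * qi q 996 ≤
          ((wideT q θ (θ (ta i)) (θ (ta k))).card : ℝ) ∧
        ∀ t ∈ wideT q θ (θ (ta i)) (θ (ta k)),
          |cos (θ t) - cos (θ (ta i)) * cos (θ (ta k))| ≤
            qi q 955 * (sin (θ (ta i)) * sin (θ (ta k)))

def ST_NARSZ : Prop :=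
  ∀ᶠ q : ℕ in atTop, ∀ m : ℕ, q ^ 1000 ≤ m → m ≤ 2 * q ^ 1000 → ∀ D : Lay q m,
    ∀ θ : Fin (NN m) → ℝ, Good q m θ → ∀ ta : D.K → Fin (NN m), WinOK D θ ta →
      ∀ i g, i ≠ D.sv → high D g → (high D i → D.lev i ≤ D.lev g) →
        35 / 10000 * (m : ℝ) ^ 2 * tolG q (D.lev g) / (Pl q (D.lev g) : ℝ) ≤
          ((narT q θ (D.lev g) (θ (ta i)) (θ (ta g))).card : ℝ) ∧
        ∀ t ∈ narT q θ (D.lev g) (θ (ta i)) (θ (ta g)),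
          |cos (θ t) - cos (θ (ta i)) * cos (θ (ta g))| ≤
            tolG q (D.lev g) * (sin (θ (ta i)) * sin (θ (ta g)))

/-- the numerical sum in stage B -/
def ST_OSUM : Prop :=
  ∀ᶠ q : ℕ in atTop, ∀ m : ℕ, q ^ 1000 ≤ m → m ≤ 2 * q ^ 1000 → ∀ D : Lay q m,
    (m : ℝ) * (q : ℝ) ^ 3 / (7 / 100 * (m : ℝ) ^ 2 * qi q 996) +
      ∑ g ∈ univ.filter (fun g => high D g),
        (q : ℝ) ^ 3 * (1 + 24 * (tolG q (D.lev g) * (112 / 100 / (Pl q (D.lev g) : ℝ)) / 20) *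
          ((m : ℝ) * (q : ℝ) ^ 11)) /
          (35 / 10000 * (m : ℝ) ^ 2 * tolG q (D.lev g) / (Pl q (D.lev g) : ℝ)) ≤ 1

/-! ## Stage D -/

/-- lower bound for the length of the range of `1 / ρ k` -/
noncomputable def rgl {q m : ℕ} (D : Lay q m) (k : D.K) : ℝ :=
  if D.ty k = Ty.v ∧ D.lev k = 0 then qi q 999 / 40
  else if high D k then 1 / (3000 * (Pl q (D.lev k) : ℝ))
  else if D.ty k = Ty.xp then qi q 1338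
  else qi q 920

def ST_WSUM : Prop :=
  ∀ᶠ q : ℕ in atTop, ∀ m : ℕ, q ^ 1000 ≤ m → m ≤ 2 * q ^ 1000 → ∀ D : Lay q m,
    (∑ k, 1 / rgl D k ≤ (m : ℝ) ^ 2 / 10 ^ 5) ∧ ∀ k, qi q 1360 ≤ rgl D k ∧ rgl D k ≤ 1 / 2

/-- ranges of `1 / ρ` -/
def ST_RANGE : Prop :=
  ∀ᶠ q : ℕ in atTop, ∀ m : ℕ, q ^ 1000 ≤ m → m ≤ 2 * q ^ 1000 → ∀ D : Lay q m,
    ∀ k, D.ty k = Ty.v ∨ D.ty k = Ty.h ∨ D.ty k = Ty.g →
      ∃ r0 r1 : ℝ, 0 < r0 ∧ r0 + rgl D k ≤ r1 ∧ r1 ≤ 2 ∧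
        ∀ α : ℝ, |α - arctan (D.rad k / D.pos k)| ≤ qi q 1394 →
        ∀ ρ : ℝ, 0 < ρ → r0 ≤ 1 / ρ → 1 / ρ ≤ r1 →
          (isF D k ∨ D.ty k = Ty.h → |ρ * cos α - D.pos k| ≤ qi q 860 ∧
            |ρ * sin α - D.rad k| ≤ qi q 860) ∧
          (D.ty k = Ty.v → D.lev k = 0 → |ρ * cos α - 1| ≤ qi q 999 ∧
            |ρ * sin α - D.rad k| ≤ qi q 999) ∧
          (D.ty k = Ty.g → |ρ * cos α - D.pos k| ≤ D.pos k / 1000 ∧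
            |ρ * sin α - D.rad k| ≤ 1 / 500)

/-- choice of the scale targets -/
def ST_PICK : Prop :=
  ∀ᶠ q : ℕ in atTop, ∀ m : ℕ, q ^ 1000 ≤ m → m ≤ 2 * q ^ 1000 → ∀ D : Lay q m,
    ∀ θ : Fin (NN m) → ℝ, Good q m θ → ∀ X : Finset (Fin (NN m)), X.card ≤ 2 →
    ∀ β r0 r1 : D.K → ℝ, (∀ k, 0 < β k ∧ β k < π ∧ 2 / 5 ≤ sin (β k)) →
      (∀ k, 0 ≤ r0 k ∧ r0 k + rgl D k ≤ r1 k ∧ r1 k ≤ 3) →
      ∃ tσ : D.K → Fin (NN m), Function.Injective tσ ∧ ∀ k, tσ k ∉ X ∧ (tσ k : ℕ) % 4 = 3 ∧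
        1 / 50 ≤ θ (tσ k) ∧ θ (tσ k) ≤ π - 1 / 50 ∧
        r0 k ≤ cos (β k) + cos (θ (tσ k)) / sin (θ (tσ k)) * sin (β k) ∧
        cos (β k) + cos (θ (tσ k)) / sin (θ (tσ k)) * sin (β k) ≤ r1 k

/-- choice of one target of pool `3` outside a small set -/
def ST_PICK1 : Prop :=
  ∀ᶠ q : ℕ in atTop, ∀ m : ℕ, q ^ 1000 ≤ m → m ≤ 2 * q ^ 1000 →
    ∀ θ : Fin (NN m) → ℝ, Good q m θ → ∀ X : Finset (Fin (NN m)), X.card ≤ 2 →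
    ∀ β r0 r1 : ℝ, 0 < β → β < π → 2 / 5 ≤ sin β → 0 ≤ r0 → r0 + qi q 1968 ≤ r1 → r1 ≤ 3 →
      ∃ t : Fin (NN m), t ∉ X ∧ (t : ℕ) % 4 = 3 ∧
        1 / 50 ≤ θ t ∧ θ t ≤ π - 1 / 50 ∧
        r0 ≤ cos β + cos (θ t) / sin (θ t) * sin β ∧
        cos β + cos (θ t) / sin (θ t) * sin β ≤ r1

/-! ## Stage E -/

/-- precision of the hosting on level `u` -/
noncomputable def wH (q m u : ℕ) : ℝ := if Pl q u ≤ q ^ 900 then (q : ℝ) ^ 2 / m else qi q 600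

/-- the nominal radius -/
noncomputable def SH (pg sg φ : ℝ) : ℝ := √((tan φ * (pg - 1)) ^ 2 - sg ^ 2)

/-- the distance from `0` or `π` -/
noncomputable def phi (x : ℝ) : ℝ := if x < 1 then x else π - x

/-- choice of the level -/
def ST_HLEV : Prop :=
  ∀ᶠ q : ℕ in atTop, ∀ φ : ℝ, top q ≤ φ → φ < qi q 9 →
    ∃ u ≤ UU q, 3 / 2 ≤ φ * (Pl q u : ℝ) ∧ φ * (Pl q u : ℝ) < 3

def ST_HSOL : Prop :=
  ∀ᶠ q : ℕ in atTop, ∀ m : ℕ, q ^ 1000 ≤ m → m ≤ 2 * q ^ 1000 → ∀ u ≤ UU q,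
    ((q : ℝ) / m ≤ wH q m u ∧ wH q m u ≤ 1 / 1000) ∧
    ∀ b pg sg φ : ℝ, (q : ℝ) ^ 1967 ≤ b →
      |pg - (1 + (Pl q u : ℝ))| ≤ (1 + (Pl q u : ℝ)) / 1000 →
      998 / 1000 ≤ sg → sg ≤ 1102 / 1000 → 3 / 2 ≤ φ * (Pl q u : ℝ) →
      φ * (Pl q u : ℝ) < 3 →
      (101 / 100 ≤ SH pg sg φ ∧ SH pg sg φ ≤ 295 / 100) ∧
      ∀ px sx rx : ℝ, |px - 1| ≤ qi q 999 → |sx - rx| ≤ qi q 999 → 1 ≤ rx → rx ≤ 3 →
        |rx - SH pg sg φ| ≤ wH q m u →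
        px < pg ∧ pg < b ∧
        (∃ ν : ℝ, |ν| ≤ 8 * wH q m u ∧ CP (pg - px) (b - pg) sx sg ν φ) ∧
        ∃ ν : ℝ, |ν| ≤ 8 * wH q m u ∧ C0 (pg - px) (b - pg) sx sg ν φ

/-- number of targets which can be hosted by a given pair -/
def ST_HDEG : Prop :=
  ∀ᶠ q : ℕ in atTop, ∀ m : ℕ, q ^ 1000 ≤ m → m ≤ 2 * q ^ 1000 → ∀ u ≤ UU q,
    ∀ θ : Fin (NN m) → ℝ, Good q m θ → ∀ pg sg rx : ℝ,
      |pg - (1 + (Pl q u : ℝ))| ≤ (1 + (Pl q u : ℝ)) / 1000 →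
      998 / 1000 ≤ sg → sg ≤ 1102 / 1000 → 1 ≤ rx → rx ≤ 3 →
      ((univ.filter fun t : Fin (NN m) => 3 / 2 ≤ phi (θ t) * (Pl q u : ℝ) ∧
        phi (θ t) * (Pl q u : ℝ) < 3 ∧ |rx - SH pg sg (phi (θ t))| ≤ wH q m u).card : ℝ) ≤
      (m : ℝ) ^ 2 * wH q m u / (Pl q u : ℝ)

/-- number of targets of level `u` -/
def ST_HCNT : Prop :=
  ∀ᶠ q : ℕ in atTop, ∀ m : ℕ, q ^ 1000 ≤ m → m ≤ 2 * q ^ 1000 → ∀ u ≤ UU q,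
    ∀ θ : Fin (NN m) → ℝ, Good q m θ →
      ((univ.filter fun t : Fin (NN m) => 3 / 2 ≤ phi (θ t) * (Pl q u : ℝ) ∧
        phi (θ t) * (Pl q u : ℝ) < 3).card : ℝ) ≤ (m : ℝ) ^ 2 / (Pl q u : ℝ)

def ST_HSUM : Prop :=
  ∀ᶠ q : ℕ in atTop, ∀ m : ℕ, q ^ 1000 ≤ m → m ≤ 2 * q ^ 1000 →
    ∑ u ∈ range (UU q + 1), (m : ℝ) ^ 2 / (Pl q u : ℝ) * (8 * wH q m u) ^ 2 ≤ 1 / 1000

/-! ## Probability -/

/-- avoiding a random set -/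
def ST_AVOID : Prop :=
  ∀ (N : ℕ) (I J : Finset (Fin N)) (V : Set ((Fin N → ℝ) × ℝ)) (u : ℝ), Disjoint I J →
    MeasurableSet V →
    (∀ (θ θ' : Fin N → ℝ) (y : ℝ), (∀ t ∈ I, θ t = θ' t) → ((θ, y) ∈ V ↔ (θ', y) ∈ V)) →
    0 ≤ u → u ≤ 1 →
    (Measure.pi fun _ : Fin N => unif)
        {θ | u ≤ (unif {y | (θ, y) ∈ V}).toReal ∧ ∀ t ∈ J, (θ, θ t) ∉ V} ≤
      ENNReal.ofReal ((1 - u) ^ J.card)

/-- the set of possible partners is not too small -/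
def ST_UMEAS : Prop :=
  ∀ᶠ q : ℕ in atTop, ∀ m : ℕ, q ^ 1000 ≤ m → m ≤ 2 * q ^ 1000 → ∀ θ : Fin (NN m) → ℝ,
    (∀ i < q ^ 1980, ∃ t : Fin (NN m), (t : ℕ) % 4 = 0 ∧
      (i : ℝ) * (π / (q : ℝ) ^ 1980) < θ t ∧
      θ t ≤ ((i : ℝ) + 1) * (π / (q : ℝ) ^ 1980)) →
    ∀ z : ℕ, ((z : ℝ) + 1) * qi q 1401 ≤ π / 2 →
      qi q 1952 ≤ (unif {y | ∃ t : Fin (NN m), (t : ℕ) % 4 = 0 ∧
        (z : ℝ) * qi q 1401 ≤ θ t ∧ θ t < ((z : ℝ) + 1) * qi q 1401 ∧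
        0 < π - θ t - y ∧ π - θ t - y < qi q 2530}).toReal

end Pool.Agent.Helper72.RA
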